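import Pool.Agent.H87.IS.Stmts2

/-! # ISO: the theorem, from the rows -/

set_option autoImplicit false

namespace Pool.Agent.H87.IS

open MvPolynomial Pool.Agent.H39.MonoR Pool.Agent.H75.Mono Pool.Agent.H87.QF

/-- `f` is, in suitable formal coordinates at `x`, a sum of power series in disjoint variables, each in at
most two variables (up to the constant `a`) -/
def TS {k σ : Type} [Field k] [Fintype σ] [DecidableEq σ] (f : MvPolynomial σ k) (x : σ → k) :
    Prop :=
  ∃ (c : σ → σ) (φ : σ → MvPowerSeries σ k), (∀ i, MvPowerSeries.constantCoeff (φ i) = x i) ∧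
    (Matrix.of fun i j => MvPowerSeries.coeff (Finsupp.single j 1) (φ i)).det ≠ 0 ∧
    (∀ j, (Finset.univ.filter fun i => c i = j).card ≤ 2) ∧
    ∀ m, MvPowerSeries.coeff m (aeval φ f) ≠ 0 → Blk c m

theorem TS.sub {k σ : Type} [Field k] [Fintype σ] [DecidableEq σ] {f : MvPolynomial σ k}
    {x : σ → k} (h : TS f x) (a : k) : TS (f - C a) x := by
  obtain ⟨c, φ, h1, h2, h3, h4⟩ := h
  refine ⟨c, φ, h1, h2, h3, fun m hm => ?_⟩
  by_cases h0 : m = 0
  · subst h0
    intro i j hi
    exact absurd rfl hi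
  · refine h4 m fun h5 => hm ?_
    rw [map_sub, map_sub, h5, aeval_C, zero_sub, neg_eq_zero]
    rw [MvPowerSeries.algebraMap_apply, Algebra.algebraMap_self, RingHom.id_apply,
      MvPowerSeries.coeff_C, if_neg h0]

theorem hess_sub {k σ : Type} [Field k] (f : MvPolynomial σ k) (a : k) (x : σ → k) :
    hess (f - C a) x = hess f x := by
  ext i j
  simp only [hess, Matrix.of_apply, map_sub, pderiv_C, sub_zero]

/-- The strong motivic monodromy conjecture for isolated singular points of corank at most two or, formally, sums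
of germs in at most two variables. -/
theorem fin (hI : ISOStmt) (hC : CRKStmt) (hS : SUSStmt) (hO : ONEStmt) (hT : TSTStmt)
    {k : Type} [Field k] [Algebra k ℂ] [IsAlgClosed k] {σ : Type} [Fintype σ] [DecidableEq σ]
    (f : MvPolynomial σ k) (a : k) (hf : Nc f) (hfin : (Crit (f - C a)).Finite)
    (h : ∀ x ∈ Crit (f - C a), Fintype.card σ ≤ (hess f x).rank + 2 ∨ TS f x) : P3 f a := by
  obtain ⟨i, hi⟩ := hf
  have : Nonempty σ := ⟨i⟩
  by_cases h1 : Fintype.card σ = 1
  · exact hO k σ f a h1 ⟨i, hi⟩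
  have h2 : 1 < Fintype.card σ := lt_of_le_of_ne Fintype.card_pos (Ne.symm h1)
  obtain ⟨p, q, hpq⟩ := Fintype.exists_pair_of_one_lt_card h2
  refine hI k σ f a hfin fun x hx => ?_
  rcases h x hx with h3 | h3
  · rw [← hess_sub f a] at h3
    obtain ⟨g, h4, h5, h6⟩ := hC k σ (f - C a) x p q hpq hfin hx h3
    exact ⟨susp p q g, h5, hS k σ g p q hpq h4 0, h6⟩
  · obtain ⟨c, φ, h4, h5, h6, h7⟩ := h3.sub a
    exact hT k σ (f - C a) x c φ hfin hx h4 h5 h6 h7

end Pool.Agent.H87.IS
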