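import Pool.Agent.H87.IS.ADefs
import Pool.Agent.H87.IS.Fin
import Pool.Agent.H66.Mot.Bridge

/-! # The theorem on isolated singular points, from the definitions of `ADefs` -/

set_option autoImplicit false

namespace Pool.Isol

open MvPolynomial Pool.Agent.H87.IS Pool.Agent.H75.Mono

theorem isolated (hI : ISOStmt) (hC : CRKStmt) (hS : SUSStmt) (hO : ONEStmt) (hT : TSTStmt)
    (k : Subfield ℂ) [IsAlgClosed k] (n : ℕ) (f : MvPolynomial (Fin n) k) (hf : Nonconstant f)
    (hfin : {x | Sing f x}.Finite) (h : ∀ x, Sing f x → CorankTwo f x ∨ SumOfGerms f x) :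
    Pool.Mot.Strong k f := by
  classical
  have h0 : f - C 0 = f := by rw [C_0, sub_zero]
  have h1 : P3 f 0 := by
    refine fin hI hC hS hO hT f 0 hf ?_ ?_
    · rw [h0]
      exact hfin
    · rw [h0]
      intro x hx
      rcases h x hx with h2 | ⟨φ, c, h2, h3, h4, h5⟩
      · left
        rw [Fintype.card_fin]
        exact h2
      · right
        refine ⟨c, φ, h2, h3, fun j => ?_, h5⟩
        have h6 := h4 j
        rw [Set.ncard_eq_toFinset_card'] at h6
        convert h6 using 2
        ext i
        simp
  have h2 := h1.final (e := (id : Fin n → Fin n)) hf Function.injective_id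
  rw [rename_id_apply] at h2
  exact Pool.Mot.strong_of h2

end Pool.Isol
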