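import Mathlib

/-!
# Isolated singular points which are formally sums of germs in at most two variables (definitions)
-/

set_option autoImplicit false

namespace Pool.Isol

open MvPolynomial

variable {k : Type} [Field k] {n : ℕ}

/-- Some partial derivative is not zero. -/
def Nonconstant (f : MvPolynomial (Fin n) k) : Prop := ∃ i, pderiv i f ≠ 0

/-- `x` is a singular point of `{f = 0}`. -/
def Sing (f : MvPolynomial (Fin n) k) (x : Fin n → k) : Prop :=
  eval x f = 0 ∧ ∀ i, eval x (pderiv i f) = 0

/-- The Hessian matrix of `f` at `x` has rank at least `n - 2`. -/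
def CorankTwo (f : MvPolynomial (Fin n) k) (x : Fin n → k) : Prop :=
  n ≤ (Matrix.of fun i j => eval x (pderiv i (pderiv j f))).rank + 2

/-- In suitable formal coordinates at `x`, `f` is a sum of power series in disjoint variables, each in at
most two variables: there are power series `φ i` with constant terms `x i` and invertible Jacobian
matrix, and a colour `c i` of each variable, at most two variables of each colour, such that all variables of
a monomial of `f(φ)` have the same colour. -/
def SumOfGerms (f : MvPolynomial (Fin n) k) (x : Fin n → k) : Prop :=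
  ∃ (φ : Fin n → MvPowerSeries (Fin n) k) (c : Fin n → Fin n),
    (∀ i, MvPowerSeries.constantCoeff (φ i) = x i) ∧
    (Matrix.of fun i j => MvPowerSeries.coeff (Finsupp.single j 1) (φ i)).det ≠ 0 ∧
    (∀ j, {i | c i = j}.ncard ≤ 2) ∧
    ∀ m, MvPowerSeries.coeff m (aeval φ f) ≠ 0 → ∀ i j, m i ≠ 0 → m j ≠ 0 → c i = c j

end Pool.Isol
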