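import Pool.Agent.H87.IS.Stmts

set_option autoImplicit false

namespace Pool.Agent.H87.IS

open MvPolynomial

namespace BERAux

section

variable {k : Type} [Field k]

/-- the polynomial `P = M g - X_0 ∂_0 g - X_1 ∂_1 g` -/
noncomputable def PP (M : ℕ) (g : MvPolynomial (Fin 2) k) : MvPolynomial (Fin 2) k :=
  C (M : k) * g - X 0 * pderiv 0 g - X 1 * pderiv 1 g

theorem coeff_PP (M : ℕ) (g : MvPolynomial (Fin 2) k) (m : Fin 2 →₀ ℕ) :
    coeff m (PP M g) = ((M : k) - m 0 - m 1) * coeff m g := by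
  unfold PP
  induction g using MvPolynomial.induction_on' with
  | monomial u a =>
    rw [X_mul_pderiv_monomial, X_mul_pderiv_monomial, C_mul_monomial, coeff_sub, coeff_sub,
      coeff_smul, coeff_smul, coeff_monomial, coeff_monomial]
    by_cases h : u = m
    · subst h
      simp only [if_true, nsmul_eq_mul]
      ring
    · simp only [if_neg h, smul_zero, sub_zero, mul_zero]
  | add p q hp hq =>
    have e : C (M : k) * (p + q) - X 0 * pderiv 0 (p + q) - X 1 * pderiv 1 (p + q) =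
        (C (M : k) * p - X 0 * pderiv 0 p - X 1 * pderiv 1 p) +
          (C (M : k) * q - X 0 * pderiv 0 q - X 1 * pderiv 1 q) := by
      rw [map_add, map_add]
      ring
    rw [e, coeff_add, hp, hq, coeff_add]
    ring

theorem deg_factor [CharZero k] {M : ℕ} {g : MvPolynomial (Fin 2) k} (hg : g.totalDegree < M)
    {m : Fin 2 →₀ ℕ} (hm : coeff m g ≠ 0) : ((M : k) - m 0 - m 1) ≠ 0 := by
  have h1 : m ∈ g.support := mem_support_iff.2 hm
  have h2 := le_totalDegree h1
  have h3 : (m.sum fun _ e => e) = m 0 + m 1 := by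
    rw [Finsupp.sum_fintype _ _ (fun _ => rfl), Fin.sum_univ_two]
  rw [h3] at h2
  intro h4
  have h5 : (M : k) = ((m 0 + m 1 : ℕ) : k) := by
    push_cast
    linear_combination h4
  have h6 := Nat.cast_injective h5
  omega

theorem PP_ne_zero [CharZero k] {M : ℕ} {g : MvPolynomial (Fin 2) k} (hg : g.totalDegree < M)
    (h0 : g ≠ 0) : PP M g ≠ 0 := by
  obtain ⟨m, hm⟩ := ne_zero_iff.1 h0
  refine ne_zero_iff.2 ⟨m, ?_⟩
  rw [coeff_PP]
  exact mul_ne_zero (deg_factor hg hm) hm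

theorem X_dvd_iff' (j : Fin 2) (p : MvPolynomial (Fin 2) k) :
    X j ∣ p ↔ ∀ m : Fin 2 →₀ ℕ, m j = 0 → coeff m p = 0 := by
  rw [X_dvd_iff_modMonomial_eq_zero]
  constructor
  · intro h m hm
    have h1 : ¬ Finsupp.single j 1 ≤ m := by
      intro h2
      have h3 := h2 j
      rw [Finsupp.single_eq_same, hm] at h3
      omega
    rw [← coeff_modMonomial_of_not_le p h1, h, coeff_zero]
  · intro h
    ext m
    rw [coeff_zero]
    by_cases h1 : Finsupp.single j 1 ≤ m
    · exact coeff_modMonomial_of_le p h1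
    · rw [coeff_modMonomial_of_not_le p h1]
      refine h m ?_
      by_contra h2
      refine h1 fun i => ?_
      by_cases hi : i = j
      · subst hi
        rw [Finsupp.single_eq_same]
        omega
      · rw [Finsupp.single_eq_of_ne hi]
        exact Nat.zero_le _

theorem X_dvd_g [CharZero k] {M : ℕ} {g : MvPolynomial (Fin 2) k} (hg : g.totalDegree < M)
    (j : Fin 2) (h : X j ∣ PP M g) : X j ∣ g := by
  rw [X_dvd_iff'] at h ⊢
  intro m hm
  by_contra h1
  have h2 := h m hm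
  rw [coeff_PP] at h2
  rcases mul_eq_zero.1 h2 with h3 | h3
  · exact deg_factor hg h1 h3
  · exact h1 h3

end

section

variable {k : Type} [Field k] [Algebra k ℂ]

/-- choice of `c₁`: for all but finitely many values the two curves meet in finitely many points -/
theorem fin_c (hF : FCZStmt) (Q0 : MvPolynomial (Fin 2) k) (m : ℕ) (P : MvPolynomial (Fin 2) k)
    (hP : P ≠ 0) :
    {c : k | ¬ {x : Fin 2 → ℂ | aeval x P = 0 ∧ aeval x (Q0 + C c * X 0 ^ m) = 0 ∧
      x 0 ≠ 0}.Finite}.Finite := by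
  revert hP
  induction P using WfDvdMonoid.induction_on_irreducible with
  | zero => intro h; exact absurd rfl h
  | unit u hu =>
    intro _
    refine Set.Finite.subset Set.finite_empty fun c hc => hc ?_
    refine Set.Finite.subset Set.finite_empty fun x hx => ?_
    have h1 : IsUnit (aeval x u : ℂ) := hu.map (aeval x : MvPolynomial (Fin 2) k →ₐ[k] ℂ)
    exact h1.ne_zero hx.1
  | mul a i ha hi ih =>
    intro _
    have h1 := ih ha
    have h2 : {c : k | ¬ {x : Fin 2 → ℂ | aeval x i = 0 ∧ aeval x (Q0 + C c * X 0 ^ m) = 0 ∧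
        x 0 ≠ 0}.Finite}.Finite := by
      by_cases h3 : i ∣ X 0
      · refine Set.Finite.subset Set.finite_empty fun c hc => hc ?_
        refine Set.Finite.subset Set.finite_empty fun x hx => ?_
        obtain ⟨y, hy⟩ := h3
        have h4 : aeval x (X 0 : MvPolynomial (Fin 2) k) = aeval x i * aeval x y := by
          rw [hy, map_mul]
        rw [hx.1, zero_mul, aeval_X] at h4
        exact hx.2.2 h4
      · have hpr : Prime i := UniqueFactorizationMonoid.irreducible_iff_prime.1 hi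
        refine Set.Finite.subset (s := {c : k | i ∣ Q0 + C c * X 0 ^ m}) ?_ ?_
        · refine Set.Subsingleton.finite fun c hc c' hc' => ?_
          by_contra hne
          have h4 : i ∣ (Q0 + C c * X 0 ^ m) - (Q0 + C c' * X 0 ^ m) := dvd_sub hc hc'
          have h5 : (Q0 + C c * X 0 ^ m) - (Q0 + C c' * X 0 ^ m) = C (c - c') * X 0 ^ m := by
            rw [C_sub]
            ring
          rw [h5] at h4
          rcases hpr.dvd_or_dvd h4 with h6 | h6
          · have h7 : IsUnit (C (c - c') : MvPolynomial (Fin 2) k) :=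
              (IsUnit.mk0 _ (sub_ne_zero.2 hne)).map C
            exact hi.not_isUnit (isUnit_of_dvd_unit h6 h7)
          · exact h3 (hpr.dvd_of_dvd_pow h6)
        · intro c hc
          by_contra h4
          refine hc ?_
          refine Set.Finite.subset (hF k i (Q0 + C c * X 0 ^ m) hi h4) fun x hx => ⟨hx.1, hx.2.1⟩
    refine Set.Finite.subset (h1.union h2) fun c hc => ?_
    by_contra h3
    rw [Set.mem_union, not_or] at h3
    obtain ⟨h4, h5⟩ := h3
    rw [Set.mem_ofPred_eq, not_not] at h4 h5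
    refine hc (Set.Finite.subset (h4.union h5) fun x hx => ?_)
    obtain ⟨h6, h7, h8⟩ := hx
    rw [map_mul] at h6
    rcases mul_eq_zero.1 h6 with h9 | h9
    · exact Or.inr ⟨h9, h7, h8⟩
    · exact Or.inl ⟨h9, h7, h8⟩

/-- the points of one axis -/
theorem axis [CharZero k] (hF : FCZStmt) {M : ℕ} {g : MvPolynomial (Fin 2) k}
    (hg : g.totalDegree < M) (i j : Fin 2) :
    {c : k | c ≠ 0 ∧ ∃ x : Fin 2 → ℂ, x j = 0 ∧ x i ≠ 0 ∧ aeval x (PP M g) = 0 ∧
      aeval x g + algebraMap k ℂ c * x i ^ M = 0}.Finite := by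
  have hinj : Function.Injective (algebraMap k ℂ) := (algebraMap k ℂ).injective
  by_cases h : X j ∣ PP M g
  · have h1 := X_dvd_g hg j h
    refine Set.Finite.subset Set.finite_empty fun c hc => ?_
    obtain ⟨hc0, x, hx1, hx2, hx3, hx4⟩ := hc
    obtain ⟨y, hy⟩ := h1
    rw [hy, map_mul, aeval_X, hx1, zero_mul, zero_add] at hx4
    rcases mul_eq_zero.1 hx4 with h2 | h2
    · exact hc0 (hinj (by rw [h2, map_zero]))
    · exact hx2 (pow_eq_zero_iff (by omega : M ≠ 0) |>.1 h2)
  · have hfin := hF k (X j) (PP M g) (X_prime.irreducible) h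
    refine Set.Finite.subset ((hfin.image fun x => -(aeval x g) / x i ^ M).preimage
      (f := algebraMap k ℂ) hinj.injOn) fun c hc => ?_
    obtain ⟨hc0, x, hx1, hx2, hx3, hx4⟩ := hc
    refine ⟨x, ⟨by rw [aeval_X, hx1], hx3⟩, ?_⟩
    have h3 : x i ^ M ≠ 0 := pow_ne_zero _ hx2
    simp only
    rw [div_eq_iff h3]
    linear_combination -hx4

end

end BERAux

open BERAux in
/-- row BER: high powers of the coordinates remove the other critical points -/
theorem BER (hF : FCZStmt) : BERStmt := by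
  intro k _ _ _ g M hM hg
  have hinj : Function.Injective (algebraMap k ℂ) := (algebraMap k ℂ).injective
  have hM0 : (M : ℂ) ≠ 0 := by
    have : M ≠ 0 := by omega
    exact_mod_cast this
  have hMk : (M : k) ≠ 0 := by
    have : M ≠ 0 := by omega
    exact_mod_cast this
  have : Infinite k := Infinite.of_injective (Nat.cast : ℕ → k) Nat.cast_injective
  -- evaluations
  have ev : ∀ (c₁ c₂ : k) (x : Fin 2 → ℂ), aeval x (g + C c₁ * X 0 ^ M + C c₂ * X 1 ^ M) =
      aeval x g + algebraMap k ℂ c₁ * x 0 ^ M + algebraMap k ℂ c₂ * x 1 ^ M := by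
    intro c₁ c₂ x
    simp only [map_add, map_mul, map_pow, aeval_X, aeval_C]
  have d0 : ∀ (c₁ c₂ : k), pderiv 0 (g + C c₁ * X 0 ^ M + C c₂ * X 1 ^ M) =
      pderiv 0 g + C ((M : k) * c₁) * X 0 ^ (M - 1) := by
    intro c₁ c₂
    have e1 : pderiv 0 (X 0 ^ M : MvPolynomial (Fin 2) k) = C (M : k) * X 0 ^ (M - 1) := by
      rw [pderiv_pow, pderiv_X_self, mul_one]
      simp
    have e2 : pderiv 0 (X 1 ^ M : MvPolynomial (Fin 2) k) = 0 := by
      rw [pderiv_pow, pderiv_X_of_ne (by decide), mul_zero]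
    rw [map_add, map_add, pderiv_C_mul, pderiv_C_mul, e1, e2, mul_zero, add_zero, C_mul]
    ring
  have d1 : ∀ (c₁ c₂ : k), pderiv 1 (g + C c₁ * X 0 ^ M + C c₂ * X 1 ^ M) =
      pderiv 1 g + C ((M : k) * c₂) * X 1 ^ (M - 1) := by
    intro c₁ c₂
    have e1 : pderiv 1 (X 1 ^ M : MvPolynomial (Fin 2) k) = C (M : k) * X 1 ^ (M - 1) := by
      rw [pderiv_pow, pderiv_X_self, mul_one]
      simp
    have e2 : pderiv 1 (X 0 ^ M : MvPolynomial (Fin 2) k) = 0 := by
      rw [pderiv_pow, pderiv_X_of_ne (by decide), mul_zero]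
    rw [map_add, map_add, pderiv_C_mul, pderiv_C_mul, e1, e2, mul_zero, add_zero, C_mul]
    ring
  have ev0 : ∀ (c₁ c₂ : k) (x : Fin 2 → ℂ),
      aeval x (pderiv 0 (g + C c₁ * X 0 ^ M + C c₂ * X 1 ^ M)) =
      aeval x (pderiv 0 g) + M * algebraMap k ℂ c₁ * x 0 ^ (M - 1) := by
    intro c₁ c₂ x
    rw [d0]
    simp only [map_add, map_mul, map_pow, aeval_X, aeval_C, map_natCast]
  have ev1 : ∀ (c₁ c₂ : k) (x : Fin 2 → ℂ),
      aeval x (pderiv 1 (g + C c₁ * X 0 ^ M + C c₂ * X 1 ^ M)) =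
      aeval x (pderiv 1 g) + M * algebraMap k ℂ c₂ * x 1 ^ (M - 1) := by
    intro c₁ c₂ x
    rw [d1]
    simp only [map_add, map_mul, map_pow, aeval_X, aeval_C, map_natCast]
  have powM : ∀ z : ℂ, z ^ M = z * z ^ (M - 1) := by
    intro z
    rw [← pow_succ', Nat.sub_add_cancel (by omega)]
  by_cases h0 : g = 0
  · refine ⟨1, 1, one_ne_zero, one_ne_zero, fun x _ hx => ?_⟩
    have h1 := hx 0
    have h2 := hx 1
    rw [ev0] at h1
    rw [ev1] at h2
    rw [h0, map_zero, map_zero, map_one, zero_add, mul_one] at h1 h2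
    have h3 : x 0 = 0 := by
      have := (mul_eq_zero.1 h1).resolve_left hM0
      exact pow_eq_zero_iff (by omega : M - 1 ≠ 0) |>.1 this
    have h4 : x 1 = 0 := by
      have := (mul_eq_zero.1 h2).resolve_left hM0
      exact pow_eq_zero_iff (by omega : M - 1 ≠ 0) |>.1 this
    funext i
    fin_cases i
    · exact h3
    · exact h4
  have hP := PP_ne_zero hg h0
  have euler : ∀ (c₁ c₂ : k) (x : Fin 2 → ℂ),
      aeval x (g + C c₁ * X 0 ^ M + C c₂ * X 1 ^ M) = 0 →
      (∀ i, aeval x (pderiv i (g + C c₁ * X 0 ^ M + C c₂ * X 1 ^ M)) = 0) →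
      aeval x (PP M g) = 0 := by
    intro c₁ c₂ x hx hx'
    have h1 := hx' 0
    have h2 := hx' 1
    rw [ev] at hx
    rw [ev0] at h1
    rw [ev1] at h2
    unfold PP
    simp only [map_sub, map_mul, aeval_X, map_natCast]
    rw [powM, powM] at hx
    linear_combination (M : ℂ) * hx - x 0 * h1 - x 1 * h2
  -- choice of `c₁`
  have b1 := fin_c hF (pderiv 0 g) (M - 1) (PP M g) hP
  have b1' : {c : k | ¬ {x : Fin 2 → ℂ | aeval x (PP M g) = 0 ∧
      aeval x (pderiv 0 g + C ((M : k) * c) * X 0 ^ (M - 1)) = 0 ∧ x 0 ≠ 0}.Finite}.Finite :=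
    b1.preimage (f := fun c : k => (M : k) * c) (fun a _ b _ hab => mul_left_cancel₀ hMk hab)
  have b2 := axis hF hg 0 1
  obtain ⟨c₁, hc₁⟩ := ((b1'.union b2).union (Set.finite_singleton (0 : k))).exists_notMem
  rw [Set.mem_union, Set.mem_union, not_or, not_or] at hc₁
  obtain ⟨⟨hc1, hc2⟩, hc3⟩ := hc₁
  rw [Set.mem_ofPred_eq, not_not] at hc1
  have hc₁0 : c₁ ≠ 0 := hc3
  -- choice of `c₂`
  have b3 := axis hF hg 1 0
  have b4 : {c : k | ∃ x ∈ {x : Fin 2 → ℂ | aeval x (PP M g) = 0 ∧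
      aeval x (pderiv 0 g + C ((M : k) * c₁) * X 0 ^ (M - 1)) = 0 ∧ x 0 ≠ 0}, x 1 ≠ 0 ∧
      aeval x g + algebraMap k ℂ c₁ * x 0 ^ M + algebraMap k ℂ c * x 1 ^ M = 0}.Finite := by
    refine Set.Finite.subset ((hc1.image fun x => -(aeval x g + algebraMap k ℂ c₁ * x 0 ^ M) /
      x 1 ^ M).preimage (f := algebraMap k ℂ) hinj.injOn) fun c hc => ?_
    obtain ⟨x, hx, hx1, hx2⟩ := hc
    refine ⟨x, hx, ?_⟩
    have h3 : x 1 ^ M ≠ 0 := pow_ne_zero _ hx1
    simp only
    rw [div_eq_iff h3]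
    linear_combination -hx2
  obtain ⟨c₂, hc₂⟩ := ((b3.union b4).union (Set.finite_singleton (0 : k))).exists_notMem
  rw [Set.mem_union, Set.mem_union, not_or, not_or] at hc₂
  obtain ⟨⟨hd1, hd2⟩, hd3⟩ := hc₂
  have hc₂0 : c₂ ≠ 0 := hd3
  refine ⟨c₁, c₂, hc₁0, hc₂0, fun x hx hx' => ?_⟩
  have hPx := euler c₁ c₂ x hx hx'
  have h1 := hx' 0
  rw [d0] at h1
  rw [ev] at hx
  have hM1 : M ≠ 0 := by omega
  by_cases hx0 : x 0 = 0
  · by_cases hx1 : x 1 = 0
    · funext i
      fin_cases i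
      · exact hx0
      · exact hx1
    · exfalso
      refine hd1 ⟨hc₂0, x, hx0, hx1, hPx, ?_⟩
      rw [hx0, zero_pow hM1, mul_zero, add_zero] at hx
      exact hx
  · by_cases hx1 : x 1 = 0
    · exfalso
      refine hc2 ⟨hc₁0, x, hx1, hx0, hPx, ?_⟩
      rw [hx1, zero_pow hM1, mul_zero, add_zero] at hx
      exact hx
    · exfalso
      exact hd2 ⟨x, ⟨hPx, h1, hx0⟩, hx1, hx⟩

end Pool.Agent.H87.IS
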