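import Pool.Agent.H87.IS.Stmts

/-! # ISO: row CRK, the normal form of a critical point of corank at most two -/

set_option autoImplicit false

namespace Pool.Agent.H87.IS

open MvPolynomial Pool.Agent.H39.MonoR Pool.Agent.H75.Mono Pool.Agent.H87.QF

namespace CRKAux

section

variable {k : Type} [Field k] {σ : Type}

theorem ord_mono {M M' : ℕ} {f : MvPolynomial σ k} (h : Ord M f) (hM : M' ≤ M) : Ord M' f :=
  fun m hm => h m (lt_of_lt_of_le hm hM)

theorem ord_add {M : ℕ} {f g : MvPolynomial σ k} (hf : Ord M f) (hg : Ord M g) :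
    Ord M (f + g) := fun m hm => by rw [coeff_add, hf m hm, hg m hm, add_zero]

theorem ord_neg {M : ℕ} {f : MvPolynomial σ k} (hf : Ord M f) : Ord M (-f) := fun m hm => by
  rw [coeff_neg, hf m hm, neg_zero]

theorem ord_sub {M : ℕ} {f g : MvPolynomial σ k} (hf : Ord M f) (hg : Ord M g) :
    Ord M (f - g) := fun m hm => by rw [coeff_sub, hf m hm, hg m hm, sub_zero]

theorem ord_sum {M : ℕ} {ι : Type} (s : Finset ι) {f : ι → MvPolynomial σ k}
    (hf : ∀ i ∈ s, Ord M (f i)) : Ord M (∑ i ∈ s, f i) := fun m hm => by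
  rw [coeff_sum]
  exact Finset.sum_eq_zero fun i hi => hf i hi m hm

theorem ord_mul {M : ℕ} {f : MvPolynomial σ k} (c : MvPolynomial σ k) (hf : Ord M f) :
    Ord M (c * f) := fun m hm => by
  classical
  rw [coeff_mul]
  refine Finset.sum_eq_zero fun x hx => ?_
  have h1 : x.1 + x.2 = m := Finset.HasAntidiagonal.mem_antidiagonal.1 hx
  have h2 : x.1.degree + x.2.degree = m.degree := by rw [← h1, map_add]
  rw [hf x.2 (by omega), mul_zero]

theorem ord_pderiv {M : ℕ} {f : MvPolynomial σ k} (i : σ) (hf : Ord (M + 1) f) :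
    Ord M (pderiv i f) := fun m hm => by
  rw [coeff_pderiv, hf, zero_mul]
  rw [map_add, Finsupp.degree_single]
  omega

theorem ord_pow {M : ℕ} (c : k) (i : σ) : Ord M (C c * X i ^ M : MvPolynomial σ k) :=
  fun m hm => by
  classical
  rw [coeff_C_mul, coeff_X_pow, if_neg, mul_zero]
  rintro rfl
  rw [Finsupp.degree_single] at hm
  omega

/-- the condition `Star` depends on the coefficients of degree `≤ N + 1` only -/
theorem star_congr [Fintype σ] {N : ℕ} {G F : MvPolynomial σ k} (hG : Star N G)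
    (h : Ord (N + 2) (G - F)) : Star N F := by
  intro m hm
  obtain ⟨c, hc⟩ := hG m hm
  refine ⟨c, ?_⟩
  have h1 : monomial m 1 - ∑ i, c i * pderiv i F =
      (monomial m 1 - ∑ i, c i * pderiv i G) + ∑ i, c i * pderiv i (G - F) := by
    simp only [map_sub, mul_sub, Finset.sum_sub_distrib]
    ring
  rw [h1]
  exact ord_add hc (ord_sum _ fun i _ => ord_mul _ (ord_pderiv i h))

/-- the condition `Star` in the coordinates `φ` -/
theorem star_phi [Fintype σ] [DecidableEq σ] (hSTT : STTStmt) {N : ℕ} {f : MvPolynomial σ k}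
    {x0 : σ → k} (hG : Star N (aeval (fun i => C (x0 i) + X i) f)) {φ : σ → MvPolynomial σ k}
    (h0 : ∀ i, coeff 0 (φ i) = x0 i) (hJ : (jac φ).det ≠ 0) : Star N (aeval φ f) := by
  have h1 : aeval (fun i => φ i - C (x0 i)) (aeval (fun i => C (x0 i) + X i) f) =
      aeval φ f := by
    rw [← AlgHom.comp_apply, comp_aeval]
    congr 2
    funext i
    simp
  have h2 : jac (fun i => φ i - C (x0 i)) = jac φ := by
    ext i j
    simp only [jac, Matrix.of_apply, coeff_sub, coeff_C]
    rw [if_neg, sub_zero]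
    intro h
    have := DFunLike.congr_fun h j
    simp at this
  rw [← h1]
  refine hSTT k σ _ _ N ?_ ?_ hG
  · intro i
    rw [coeff_sub, h0, coeff_C, if_pos rfl, sub_self]
  · rw [h2]
    exact hJ

theorem pderiv_swap (i j : σ) (f : MvPolynomial σ k) :
    pderiv i (pderiv j f) = pderiv j (pderiv i f) := by
  classical
  by_cases hij : i = j
  · rw [hij]
  ext m
  rw [coeff_pderiv, coeff_pderiv, coeff_pderiv, coeff_pderiv, add_right_comm]
  simp only [Finsupp.add_apply, Finsupp.single_apply, if_neg hij, if_neg (Ne.symm hij), add_zero]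
  ring

theorem hess_symm (f : MvPolynomial σ k) (x : σ → k) : (hess f x).IsSymm := by
  ext i j
  simp only [hess, Matrix.transpose_apply, Matrix.of_apply]
  rw [pderiv_swap]

theorem aeval_map_eq [Algebra k ℂ] (f : MvPolynomial σ k) (y : σ → k) :
    aeval (fun i => algebraMap k ℂ (y i)) f = algebraMap k ℂ (eval y f) := by
  rw [← aeval_eq_eval y]
  exact (aeval_algebraMap_apply ℂ y f)


theorem vec_inj {p q : σ} (hpq : p ≠ q) : Function.Injective ![p, q] := by
  intro i j h
  fin_cases i <;> fin_cases j <;> simp_all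

theorem coeff_big {g : MvPolynomial (Fin 2) k} {M : ℕ} (hM : 2 ≤ M) (hg : g.totalDegree < M)
    (c₁ c₂ : k) : coeff (Finsupp.single 0 M) (g + C c₁ * X 0 ^ M + C c₂ * X 1 ^ M) = c₁ := by
  rw [coeff_add, coeff_add, coeff_C_mul, coeff_C_mul, coeff_X_pow, coeff_X_pow, if_pos rfl,
    if_neg, mul_one, mul_zero, add_zero, coeff_eq_zero_of_totalDegree_lt, zero_add]
  · rw [← Finsupp.degree_apply, Finsupp.degree_single]
    exact hg
  · intro h
    have := DFunLike.congr_fun h 0
    simp only [Finsupp.single_apply] at this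
    simp at this
    omega

theorem nc_big [CharZero k] {g : MvPolynomial (Fin 2) k} {M : ℕ} (hM : 2 ≤ M)
    (hg : g.totalDegree < M) {c₁ : k} (h1 : c₁ ≠ 0) (c₂ : k) :
    Nc (g + C c₁ * X 0 ^ M + C c₂ * X 1 ^ M) := by
  refine ⟨0, fun h => ?_⟩
  have h2 := coeff_pderiv (i := 0) (g + C c₁ * X 0 ^ M + C c₂ * X 1 ^ M)
    (Finsupp.single 0 (M - 1))
  rw [h, coeff_zero, ← Finsupp.single_add, Nat.sub_add_cancel (by omega : 1 ≤ M),
    coeff_big hM hg] at h2
  have h3 : (((Finsupp.single (0 : Fin 2) (M - 1) : Fin 2 →₀ ℕ) 0 : ℕ) : k) + 1 ≠ 0 :=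
    Nat.cast_add_one_ne_zero _
  exact mul_ne_zero h1 h3 h2.symm

theorem crit_susp [CharZero k] [Algebra k ℂ] [Fintype σ] [DecidableEq σ] {p q : σ} (hpq : p ≠ q)
    (g : MvPolynomial (Fin 2) k)
    (hg : ∀ x : Fin 2 → ℂ, aeval x g = 0 → (∀ i, aeval x (pderiv i g) = 0) → x = 0) :
    Crit (susp p q g) ⊆ {0} := by
  rintro x ⟨h1, h2⟩
  have hi : ∀ i, i ≠ p → i ≠ q → x i = 0 := by
    intro i hip hiq
    have h3 := h2 i
    have h4 : pderiv i (rename ![p, q] g) = 0 := by
      refine pderiv_eq_zero_of_notMem_vars fun hi => ?_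
      obtain ⟨j, -, hj⟩ := Finset.mem_image.1 (vars_rename _ _ hi)
      fin_cases j
      · exact hip hj.symm
      · exact hiq hj.symm
    rw [susp, map_add, h4, zero_add, map_sum, map_sum,
      Finset.sum_eq_single_of_mem i (by simp [hip, hiq])] at h3
    · rw [Derivation.leibniz_pow, pderiv_X_self] at h3
      simpa using h3
    · intro j _ hj
      rw [Derivation.leibniz_pow, pderiv_X_of_ne hj]
      simp
  have hs : ∀ l, (∀ i, i ≠ p → i ≠ q → i ≠ l) →
      pderiv l (∑ i ∈ Finset.univ.filter (fun i => i ≠ p ∧ i ≠ q), (X i : MvPolynomial σ k) ^ 2)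
        = 0 := by
    intro l hl
    rw [map_sum]
    refine Finset.sum_eq_zero fun i hi => ?_
    rw [Finset.mem_filter] at hi
    rw [Derivation.leibniz_pow, pderiv_X_of_ne (hl i hi.2.1 hi.2.2)]
    simp
  have hr : ∀ P : MvPolynomial (Fin 2) k, eval x (rename ![p, q] P) = eval (fun i => x (![p, q] i)) P :=
    fun P => by
      rw [eval_rename]
      rfl
  have e1 : eval (fun i => x (![p, q] i)) g = 0 := by
    rw [susp, map_add, map_sum, Finset.sum_eq_zero, add_zero, hr] at h1
    · exact h1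
    · intro i hi'
      rw [Finset.mem_filter] at hi'
      simp [hi i hi'.2.1 hi'.2.2]
  have e2 : ∀ j, eval (fun i => x (![p, q] i)) (pderiv j g) = 0 := by
    intro j
    have h3 := h2 (![p, q] j)
    rw [susp, map_add, pderiv_rename (vec_inj hpq), hs, add_zero, hr] at h3
    · exact h3
    · intro i hip hiq
      fin_cases j
      · exact hip
      · exact hiq
  have h5 := hg (fun i => algebraMap k ℂ (x (![p, q] i))) (by
    rw [aeval_map_eq (f := g) (y := fun i => x (![p, q] i)), e1, map_zero]) (fun i => by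
    rw [aeval_map_eq (f := pderiv i g) (y := fun i => x (![p, q] i)), e2, map_zero])
  have h6 : ∀ j, x (![p, q] j) = 0 := by
    intro j
    have := congrFun h5 j
    simpa using this
  rw [Set.mem_singleton_iff]
  funext i
  by_cases hip : i = p
  · rw [hip]
    exact h6 0
  by_cases hiq : i = q
  · rw [hiq]
    exact h6 1
  exact hi i hip hiq

end

end CRKAux

open CRKAux in
theorem CRK (hQDG : QDGStmt) (hTQ : TQStmt) (hSPL : SPLStmt) (hSTR : STRStmt) (hSTT : STTStmt)
    (hDTI : DTIStmt) (hBER : BERStmt) : CRKStmt := by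
  intro k _ _ _ σ _ _ f x0 p q hpq hfin hx0 hrk
  have := charZero k
  obtain ⟨A, U, hA, hAU, hU⟩ := hQDG k σ (hess f x0) p q (hess_symm f x0) hpq hrk
  have hT := hTQ k σ f x0 A U hx0 hAU
  obtain ⟨N, hN, hS⟩ := hSTR k σ f x0 hfin hx0
  obtain ⟨φ, g, h0, hJ, -, hO⟩ := hSPL k σ f x0 A U p q hpq hA hU hT (2 * N + 3) (by omega)
  have hS1 : Star N (aeval φ f) := star_phi hSTT hS h0 hJ
  set M := 2 * N + 3 + g.totalDegree + 1 with hM
  obtain ⟨c₁, c₂, hc1, hc2, hB⟩ := hBER k g M (by omega) (by omega)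
  refine ⟨g + C c₁ * X 0 ^ M + C c₂ * X 1 ^ M, nc_big (by omega) (by omega) hc1 c₂, ?_,
    crit_susp hpq _ hB⟩
  have h1 : susp p q (g + C c₁ * X 0 ^ M + C c₂ * X 1 ^ M) =
      susp p q g + (C c₁ * X p ^ M + C c₂ * X q ^ M) := by
    simp only [susp, map_add, map_mul, map_pow, rename_C, rename_X]
    simp only [Matrix.cons_val_zero, Matrix.cons_val_one]
    ring
  have h2 : Ord (2 * N + 3) (aeval φ f - susp p q (g + C c₁ * X 0 ^ M + C c₂ * X 1 ^ M)) := by
    rw [h1, ← sub_sub]
    exact ord_sub hO (ord_mono (ord_add (ord_pow c₁ p) (ord_pow c₂ q)) (by omega))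
  have h3 : Star N (susp p q (g + C c₁ * X 0 ^ M + C c₂ * X 1 ^ M)) :=
    star_congr hS1 (ord_mono h2 (by omega))
  exact hDTI k σ f _ x0 φ N (2 * N + 3) hN (by omega) h3 h0 hJ h2

end Pool.Agent.H87.IS
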