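import Pool.Agent.H87.IS.Stmts

/-!
# Board `isq`, row DT1: Taylor expansion of order two and one step of finite determinacy
-/

set_option autoImplicit false

namespace Pool.Agent.H87.IS

open MvPolynomial

namespace DT1Aux

variable {k : Type} [Field k] {σ : Type}

theorem ord_zero (M : ℕ) : Ord M (0 : MvPolynomial σ k) := fun m _ => coeff_zero m

theorem Ord.mono {M M' : ℕ} {f : MvPolynomial σ k} (h : Ord M f) (hM : M' ≤ M) : Ord M' f :=
  fun m hm => h m (lt_of_lt_of_le hm hM)

theorem Ord.add {M : ℕ} {f g : MvPolynomial σ k} (hf : Ord M f) (hg : Ord M g) : Ord M (f + g) :=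
  fun m hm => by rw [coeff_add, hf m hm, hg m hm, add_zero]

theorem Ord.neg {M : ℕ} {f : MvPolynomial σ k} (hf : Ord M f) : Ord M (-f) :=
  fun m hm => by rw [coeff_neg, hf m hm, neg_zero]

theorem Ord.sub {M : ℕ} {f g : MvPolynomial σ k} (hf : Ord M f) (hg : Ord M g) : Ord M (f - g) :=
  fun m hm => by rw [coeff_sub, hf m hm, hg m hm, sub_zero]

theorem ord_sum {ι : Type} {M : ℕ} (s : Finset ι) (f : ι → MvPolynomial σ k)
    (h : ∀ i ∈ s, Ord M (f i)) : Ord M (∑ i ∈ s, f i) := by
  intro m hm
  rw [coeff_sum]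
  exact Finset.sum_eq_zero fun i hi => h i hi m hm

theorem Ord.mul {a b : ℕ} {f g : MvPolynomial σ k} (hf : Ord a f) (hg : Ord b g) :
    Ord (a + b) (f * g) := by
  classical
  intro m hm
  rw [coeff_mul]
  refine Finset.sum_eq_zero fun x hx => ?_
  have h1 : x.1 + x.2 = m := Finset.HasAntidiagonal.mem_antidiagonal.1 hx
  have h2 : x.1.degree + x.2.degree = m.degree := by rw [← h1, map_add]
  rcases lt_or_ge x.1.degree a with h | h
  · rw [hf _ h, zero_mul]
  · rw [hg _ (by omega), mul_zero]

theorem ord_nil (f : MvPolynomial σ k) : Ord 0 f := fun _ hm => absurd hm (Nat.not_lt_zero _)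

theorem Ord.mul_left {b : ℕ} {g : MvPolynomial σ k} (f : MvPolynomial σ k) (hg : Ord b g) :
    Ord b (f * g) := by
  have h := Ord.mul (ord_nil f) hg
  rwa [Nat.zero_add] at h

theorem Ord.mul_right {a : ℕ} {f : MvPolynomial σ k} (hf : Ord a f) (g : MvPolynomial σ k) :
    Ord a (f * g) := by
  have h := Ord.mul hf (ord_nil g)
  rwa [Nat.add_zero] at h

theorem ord_monomial {M : ℕ} (m : σ →₀ ℕ) (c : k) (h : M ≤ m.degree) : Ord M (monomial m c) := by
  classical
  intro n hn
  rw [coeff_monomial, if_neg]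
  rintro rfl
  omega

theorem Ord.pderiv {M : ℕ} {f : MvPolynomial σ k} (hf : Ord M f) (i : σ) :
    Ord (M - 1) (MvPolynomial.pderiv i f) := by
  intro m hm
  rw [coeff_pderiv, hf, zero_mul]
  rw [map_add, Finsupp.degree_single]
  omega

variable [Fintype σ] [DecidableEq σ]

/-- Taylor expansion of order two -/
theorem taylor (e : ℕ) (b : σ → MvPolynomial σ k) (hb : ∀ i, Ord e (b i)) (G : MvPolynomial σ k) :
    Ord (2 * e) (aeval (fun i => X i + b i) G - G - ∑ i, b i * pderiv i G) := by
  induction G using MvPolynomial.induction_on with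
  | C a =>
    have h : aeval (fun i => X i + b i) (C a : MvPolynomial σ k) - C a -
        ∑ i, b i * MvPolynomial.pderiv i (C a) = 0 := by
      rw [algHom_C, MvPolynomial.algebraMap_eq, sub_self]
      simp
    rw [h]
    exact ord_zero _
  | add p q hp hq =>
    have h : aeval (fun i => X i + b i) (p + q) - (p + q) - ∑ i, b i * MvPolynomial.pderiv i (p + q) =
        (aeval (fun i => X i + b i) p - p - ∑ i, b i * MvPolynomial.pderiv i p) +
          (aeval (fun i => X i + b i) q - q - ∑ i, b i * MvPolynomial.pderiv i q) := by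
      simp only [map_add, mul_add, Finset.sum_add_distrib]
      ring
    rw [h]
    exact Ord.add hp hq
  | mul_X p j hp =>
    have h1 : ∑ i, b i * MvPolynomial.pderiv i (p * X j) =
        (∑ i, b i * MvPolynomial.pderiv i p) * X j + b j * p := by
      have h2 : ∀ i, b i * MvPolynomial.pderiv i (p * X j) =
          b i * MvPolynomial.pderiv i p * X j + (if j = i then b i * p else 0) := by
        intro i
        rw [pderiv_mul, pderiv_X]
        by_cases hij : j = i
        · subst hij
          rw [Pi.single_eq_same, if_pos rfl]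
          ring
        · rw [Pi.single_eq_of_ne hij, if_neg hij]
          ring
      rw [Finset.sum_congr rfl fun i _ => h2 i, Finset.sum_add_distrib, ← Finset.sum_mul,
        Finset.sum_ite_eq]
      simp
    have h : aeval (fun i => X i + b i) (p * X j) - p * X j -
        ∑ i, b i * MvPolynomial.pderiv i (p * X j) =
        (aeval (fun i => X i + b i) p - p - ∑ i, b i * MvPolynomial.pderiv i p) * X j +
          (aeval (fun i => X i + b i) p - p) * b j := by
      rw [h1, map_mul, aeval_X]
      ring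
    rw [h]
    refine Ord.add (Ord.mul_right hp _) ?_
    have h3 : Ord e (aeval (fun i => X i + b i) p - p) := by
      have h4 : aeval (fun i => X i + b i) p - p =
          (aeval (fun i => X i + b i) p - p - ∑ i, b i * MvPolynomial.pderiv i p) +
            ∑ i, b i * MvPolynomial.pderiv i p := by ring
      rw [h4]
      refine Ord.add (Ord.mono hp (by omega)) (ord_sum _ _ fun i _ => Ord.mul_right (hb i) _)
    have h5 := Ord.mul h3 (hb j)
    rwa [← two_mul] at h5

omit [DecidableEq σ] in
theorem one_monomial (F : MvPolynomial σ k) (N M : ℕ) (hNM : N ≤ M) (hS : Star N F)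
    (m : σ →₀ ℕ) (a : k) (hm : M ≤ m.degree) :
    ∃ b : σ → MvPolynomial σ k, (∀ i, Ord (M - N) (b i)) ∧
      Ord (M + 1) (monomial m a - ∑ i, b i * pderiv i F) := by
  rcases hm.lt_or_eq with hlt | heq
  · refine ⟨fun _ => 0, fun i => ord_zero _, ?_⟩
    have h : monomial m a - ∑ i : σ, (0 : MvPolynomial σ k) * pderiv i F = monomial m a := by
      simp
    rw [h]
    exact ord_monomial m a hlt
  · obtain ⟨m₂, h2, h3⟩ := Finsupp.exists_le_degree_eq m N (by omega)
    obtain ⟨m₁, rfl⟩ := le_iff_exists_add.1 h2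
    have h4 : m₁.degree = M - N := by
      rw [map_add] at heq
      omega
    obtain ⟨c, hc⟩ := hS m₂ h3
    refine ⟨fun i => monomial m₁ a * c i, fun i => Ord.mul_right (ord_monomial m₁ a h4.ge) _, ?_⟩
    have h5 : monomial (m₂ + m₁) a - ∑ i, monomial m₁ a * c i * pderiv i F =
        monomial m₁ a * (monomial m₂ 1 - ∑ i, c i * pderiv i F) := by
      rw [mul_sub, monomial_mul, mul_one, add_comm m₁ m₂, Finset.mul_sum]
      congr 1
      exact Finset.sum_congr rfl fun i _ => by rw [mul_assoc]
    rw [h5]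
    have h6 := Ord.mul (ord_monomial m₁ a h4.ge) hc
    exact Ord.mono h6 (by omega)

omit [DecidableEq σ] in
theorem many (F h : MvPolynomial σ k) (N M : ℕ) (hNM : N ≤ M) (hS : Star N F) (hh : Ord M h) :
    ∃ b : σ → MvPolynomial σ k, (∀ i, Ord (M - N) (b i)) ∧
      Ord (M + 1) (h - ∑ i, b i * pderiv i F) := by
  have key : ∀ m : σ →₀ ℕ, ∃ b : σ → MvPolynomial σ k, (∀ i, Ord (M - N) (b i)) ∧
      Ord (M + 1) (monomial m (coeff m h) - ∑ i, b i * pderiv i F) := by
    intro m
    rcases lt_or_ge m.degree M with hm | hm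
    · refine ⟨fun _ => 0, fun i => ord_zero _, ?_⟩
      rw [hh m hm]
      have h1 : monomial m (0 : k) - ∑ i : σ, (0 : MvPolynomial σ k) * pderiv i F = 0 := by
        simp
      rw [h1]
      exact ord_zero _
    · exact one_monomial F N M hNM hS m _ hm
  choose b hb1 hb2 using key
  refine ⟨fun i => ∑ m ∈ h.support, b m i, fun i => ord_sum _ _ fun m _ => hb1 m i, ?_⟩
  have h1 : h - ∑ i, (∑ m ∈ h.support, b m i) * pderiv i F =
      ∑ m ∈ h.support, (monomial m (coeff m h) - ∑ i, b m i * pderiv i F) := by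
    rw [Finset.sum_sub_distrib, Finset.sum_comm, ← MvPolynomial.as_sum]
    congr 1
    exact Finset.sum_congr rfl fun i _ => by rw [Finset.sum_mul]
  rw [h1]
  exact ord_sum _ _ fun m _ => hb2 m

end DT1Aux

open DT1Aux in
/-- row DT1 -/
theorem DT1 : DT1Stmt := by
  intro k _ σ _ _ F G N M hN hM hS hO
  have hO' : Ord M (F - G) := by
    have h : F - G = -(G - F) := by ring
    rw [h]
    exact Ord.neg hO
  obtain ⟨b, hb1, hb2⟩ := many F (F - G) N M (by omega) hS hO'
  refine ⟨b, hb1, ?_⟩
  have h1 : aeval (fun i => X i + b i) G - F =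
      (aeval (fun i => X i + b i) G - G - ∑ i, b i * pderiv i G) +
        ∑ i, b i * pderiv i (G - F) - (F - G - ∑ i, b i * pderiv i F) := by
    simp only [map_sub, mul_sub, Finset.sum_sub_distrib]
    ring
  rw [h1]
  refine Ord.sub (Ord.add ?_ ?_) hb2
  · exact Ord.mono (taylor (M - N) b hb1 G) (by omega)
  · refine ord_sum _ _ fun i _ => ?_
    exact Ord.mono (Ord.mul (hb1 i) (Ord.pderiv hO i)) (by omega)

end Pool.Agent.H87.IS
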