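import Pool.Agent.H44.IS.LOG
import Pool.Agent.H75.Fib.DIF

/-! # ISO, row GTL: from the relative series to the local series, for one critical point -/

set_option autoImplicit false

namespace Pool.Agent.H87.IS

open MvPolynomial Pool.Agent.H39.MonoR Pool.Agent.H75.Mono Pool.Agent.H87.QF

theorem GTL : GTLStmt := by
  intro k _ _ σ _ _ f S hP hI
  classical
  have hP' : ∀ x : σ → ℂ, aeval x f = 0 → (∀ i, aeval x (pderiv i f) = 0) →
      ∃ p ∈ ({0} : Finset (σ → k)), ∀ i, x i = algebraMap k ℂ (p i) := by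
    intro x h1 h2
    refine ⟨0, Finset.mem_singleton_self _, fun i => ?_⟩
    rw [hP x h1 h2, Pi.zero_apply, Pi.zero_apply, map_zero]
  have hT : ICons k {x : σ → ℂ | ¬ ∃ p ∈ ({0} : Finset (σ → k)), x ∈ LOGAux.Pt p} := by
    have e : {x : σ → ℂ | ∃ p ∈ ({0} : Finset (σ → k)), x ∈ LOGAux.Pt p} =
        LOGAux.Pt (0 : σ → k) := by
      ext x
      simp
    have h : ICons k {x : σ → ℂ | ∃ p ∈ ({0} : Finset (σ → k)), x ∈ LOGAux.Pt p} := by
      rw [e]
      exact LOGAux.pt_cons _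
    exact h.not
  refine RatF.of_eventually hI.dif 1 ?_
  intro t d hd0
  have hd : d ≠ 0 := by omega
  rw [PowerSeries.coeff_mk, PowerSeries.coeff_mk, if_neg hd]
  have h2 := mo_nc f (Nat.pos_of_ne_zero hd) hT t
  have h3 := LOGAux.key f {0} hP' hd t
  have h4 := LOGAux.key f {0} hP' hd t.zr
  rw [h2] at h3
  rw [h3, h4, Finset.sum_singleton, Finset.sum_singleton]
  exact add_sub_add_right_eq_sub _ _ _

end Pool.Agent.H87.IS
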