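import Pool.Agent.H87.IS.Stmts

/-! # Row ISO of project IS: formal changes of coordinates at isolated points -/

set_option autoImplicit false

namespace Pool.Agent.H87.IS

open MvPolynomial Pool.Agent.H39.MonoR Pool.Agent.H75.Mono Pool.Agent.H87.QF

theorem ISO (h1 : TORStmt) (h2 : TRCStmt) (h3 : ZTRStmt) (h4 : LOGStmt) (h5 : GTLStmt)
    (h6 : KPTStmt) : ISOStmt := by
  intro k _ _ _ σ _ _ f a hfin hF
  have hch := charZero k
  classical
  have hex : ∀ p ∈ Crit (f - C a), ∃ (F : MvPolynomial σ k) (S : Finset (ℤ × ℕ)),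
      FEq (f - C a) p F ∧ Crit F ⊆ {0} ∧ Inv F (S : Set (ℤ × ℕ)) ∧
      ∀ q ∈ S, q.1 < 0 ∧ 0 < q.2 ∧ SRs k F (-(q.1 : ℚ) / q.2) := by
    intro p hp
    obtain ⟨F, hF1, ⟨S, hS1, hS2⟩, hF3⟩ := hF p hp
    rw [C_0, sub_zero] at hS1
    simp only [C_0, sub_zero] at hS2
    exact ⟨F, S, hF1, hF3, hS1, hS2⟩
  choose! F S hF1 hF2 hF3 hF4 using hex
  refine ⟨hfin.toFinset.biUnion S, ?_, ?_⟩
  · refine h4 k σ (f - C a) hfin.toFinset _ ?_ ?_
    · intro x hx1 hx2
      obtain ⟨p, hp, hp2⟩ := h6 k σ (f - C a) hfin x hx1 hx2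
      exact ⟨p, (Set.Finite.mem_toFinset hfin).mpr hp, hp2⟩
    · intro p hp
      have hp' : p ∈ Crit (f - C a) := (Set.Finite.mem_toFinset hfin).mp hp
      have hcf : (Crit (F p)).Finite := Set.Finite.subset (Set.finite_singleton 0) (hF2 p hp')
      have hz : ∀ x : σ → ℂ, aeval x (F p) = 0 → (∀ i, aeval x (pderiv i (F p)) = 0) → x = 0 := by
        intro x hx1 hx2
        obtain ⟨y, hy, hy2⟩ := h6 k σ (F p) hcf x hx1 hx2
        have hy0 : y = 0 := hF2 p hp' hy
        funext i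
        rw [hy2 i, hy0]
        simp
      have hl : LRat (F p) 0 (S p : Set (ℤ × ℕ)) := h5 k σ (F p) _ hz (hF3 p hp')
      have hl2 : LRat (f - C a) p (S p : Set (ℤ × ℕ)) := by
        refine RatF.congr hl ?_
        intro t
        ext d
        rw [PowerSeries.coeff_mk, PowerSeries.coeff_mk]
        by_cases hd : d = 0
        · rw [if_pos hd, if_pos hd]
        · rw [if_neg hd, if_neg hd, h3 k σ (f - C a) (F p) p (hF1 p hp') d t (by omega),
            h3 k σ (f - C a) (F p) p (hF1 p hp') d t.zr (by omega)]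
      refine RatF.mono hl2 ?_
      intro q hq
      rw [Finset.coe_biUnion]
      exact Set.mem_biUnion (Finset.mem_coe.mpr hp) hq
  · intro q hq
    rw [Finset.mem_biUnion] at hq
    obtain ⟨p, hp, hqp⟩ := hq
    have hp' : p ∈ Crit (f - C a) := (Set.Finite.mem_toFinset hfin).mp hp
    obtain ⟨q1, q2, q3⟩ := hF4 p hp' q hqp
    refine ⟨q1, q2, ?_⟩
    have hs : (0 : ℚ) < -(q.1 : ℚ) / q.2 := by
      apply div_pos
      · rw [neg_pos]
        exact_mod_cast q1
      · exact_mod_cast q2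
    exact h2 k σ (f - C a) (F p) p _ (hF1 p hp')
      (h1 k σ (F p) _ hs (hF2 p hp') q3)

end Pool.Agent.H87.IS
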