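import Pool.Agent.H87.IS.Stmts

/-! # ISO: row SUS, suspensions of plane curves are composites -/

set_option autoImplicit false

namespace Pool.Agent.H87.IS

open MvPolynomial Pool.Agent.H39.MonoR Pool.Agent.H75.Mono Pool.Agent.H87.QF

namespace SUSAux

section

variable {k : Type} [Field k] [Algebra k ℂ] {σ : Type}

theorem sm_X (i : σ) (a : ℂ) : Sm (X i : MvPolynomial σ k) a := by
  classical
  intro x _
  refine ⟨i, ?_⟩
  rw [pderiv_X_self, map_one]
  exact one_ne_zero

/-- the outer polynomial -/
noncomputable def og (k : Type) [Field k] : MvPolynomial (Fin (1 + 1)) k := X 0 + X 1 ^ 2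

omit [Algebra k ℂ] in
theorem pd0 : pderiv 0 (og k) = 1 := by
  have h1 : pderiv (0 : Fin (1 + 1)) (X 1 : MvPolynomial (Fin (1 + 1)) k) = 0 :=
    pderiv_X_of_ne (by decide)
  rw [og, map_add, pderiv_X_self, Derivation.leibniz_pow, h1]
  simp

omit [Algebra k ℂ] in
theorem pd1 : pderiv 1 (og k) = 2 * X 1 := by
  have h1 : pderiv (1 : Fin (1 + 1)) (X 0 : MvPolynomial (Fin (1 + 1)) k) = 0 :=
    pderiv_X_of_ne (by decide)
  rw [og, map_add, h1, Derivation.leibniz_pow, pderiv_X_self]
  simp

theorem swh (b : k) : SWH (![2, 1] : Fin (1 + 1) → ℕ) 2 ∅ (shf (og k) ![b, 0] b) := by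
  have h1 : shf (og k) ![b, 0] b = og k + 0 := by
    simp only [shf, og, map_add, map_pow, aeval_X]
    simp only [Matrix.cons_val_zero, Matrix.cons_val_one, map_zero]
    ring
  refine ⟨two_pos, ?_, og k, 0, h1, ?_, ?_, ?_⟩
  · intro i
    fin_cases i <;> simp
  · refine IsWeightedHomogeneous.add ?_ ?_
    · exact isWeightedHomogeneous_X k (![2, 1] : Fin (1 + 1) → ℕ) 0
    · have h2 := (isWeightedHomogeneous_X k (![2, 1] : Fin (1 + 1) → ℕ) 1).pow 2
      exact h2
  · intro m hm
    exact absurd (coeff_zero m) hm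
  · intro x _ hx
    have h2 := hx 0 (by simp)
    have h3 := hx 1 (by simp)
    rw [pd0, map_one, mul_one] at h2
    rw [pd1, map_mul, aeval_X, map_ofNat] at h3
    funext i
    fin_cases i
    · exact h2
    · have h4 : x 1 = 0 := by
        rcases mul_eq_zero.1 h3 with h | h
        · exact h
        · rcases mul_eq_zero.1 h with h | h
          · exact absurd h two_ne_zero
          · exact h
      exact h4

variable [DecidableEq σ]

/-- one more square -/
theorem step {s : Finset σ} {h : MvPolynomial σ k} {i : σ} (hi : i ∉ s) (hN : Nc h)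
    (hv : h.vars ⊆ s) (hF : ∀ b, Fibp s h b) (b : k) : Fibp (s ∪ {i}) (h + X i ^ 2) b := by
  have hs : s ∪ {i} = Finset.univ.biUnion (![s, {i}] : Fin (1 + 1) → Finset σ) := by
    ext j
    simp only [Finset.mem_union, Finset.mem_singleton, Finset.mem_biUnion, Finset.mem_univ,
      true_and]
    constructor
    · rintro (h | h)
      · exact ⟨0, h⟩
      · exact ⟨1, Finset.mem_singleton.2 h⟩
    · rintro ⟨l, hl⟩
      fin_cases l
      · exact Or.inl hl
      · exact Or.inr (Finset.mem_singleton.1 hl)
  have hG : h + X i ^ 2 = aeval (![h, X i] : Fin (1 + 1) → MvPolynomial σ k) (og k) := by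
    simp only [og, map_add, map_pow, aeval_X]
    rfl
  rw [hs, hG]
  refine Fibp.gate {![b, 0]} (fun _ => ![2, 1]) (fun _ => 2) (fun _ => ∅) ?_ ?_ ?_
    (fun b _ i hi => absurd hi (by simp)) ?_ ?_ ?_ ?_
  · intro x hx hx'
    have h1 := hx' 1
    have h2 : x 1 = 0 := by
      rcases h1 with h1 | h1
      · rw [pd1, map_mul, aeval_X, map_ofNat] at h1
        rcases mul_eq_zero.1 h1 with h | h
        · exact absurd h two_ne_zero
        · exact h
      · exact absurd (sm_X i (x 1)) h1
    have h3 : x 0 = algebraMap k ℂ b := by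
      rw [og, map_add, map_pow, aeval_X, aeval_X, h2] at hx
      simpa using hx
    refine ⟨![b, 0], Finset.mem_singleton_self _, fun j => ?_⟩
    fin_cases j
    · exact h3
    · simpa using h2
  · intro b' hb'
    rw [Finset.mem_singleton.1 hb', og, map_add, map_pow, eval_X, eval_X]
    simp
  · intro b' hb'
    rw [Finset.mem_singleton.1 hb']
    exact swh b
  · intro j j' hjj
    have hd : Disjoint s {i} := Finset.disjoint_singleton_right.2 hi
    fin_cases j <;> fin_cases j' <;> first | exact absurd rfl hjj | exact hd | exact hd.symm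
  · intro j
    fin_cases j
    · exact hN
    · exact Nc.X i
  · intro j
    fin_cases j
    · exact hv
    · show (X i : MvPolynomial σ k).vars ⊆ {i}
      rw [vars_X]
  · intro b' hb' j
    fin_cases j
    · exact hF _
    · refine Fibp.smooth ?_ (sm_X i _)
      show (X i : MvPolynomial σ k).vars ⊆ {i}
      rw [vars_X]

omit [Algebra k ℂ] in
theorem nc_step {s : Finset σ} {h : MvPolynomial σ k} {i : σ} (hi : i ∉ s) (hN : Nc h)
    (hv : h.vars ⊆ s) : Nc (h + X i ^ 2) := by
  obtain ⟨j, hj⟩ := hN
  refine ⟨j, ?_⟩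
  have hjs : j ∈ s := hv (by
    by_contra h'
    exact hj (pderiv_eq_zero_of_notMem_vars h'))
  have hne : i ≠ j := fun h => hi (h ▸ hjs)
  rw [map_add, Derivation.leibniz_pow, pderiv_X_of_ne hne]
  simpa using hj

theorem all [IsAlgClosed k] (g : MvPolynomial (Fin 2) k) {p q : σ} (hpq : p ≠ q) (hg : Nc g)
    (t : Finset σ) (ht : ∀ i ∈ t, i ≠ p ∧ i ≠ q) :
    Nc (rename ![p, q] g + ∑ i ∈ t, X i ^ 2 : MvPolynomial σ k) ∧
      ∀ b : k, Fibp ({p, q} ∪ t) (rename ![p, q] g + ∑ i ∈ t, X i ^ 2) b := by
  have hinj : Function.Injective ![p, q] := by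
    intro i j h
    fin_cases i <;> fin_cases j <;> simp_all
  induction t using Finset.induction_on with
  | empty =>
    have h1 : Nc (rename ![p, q] g) := (nc_rename hinj).2 hg
    have h2 : (rename ![p, q] g).vars ⊆ ({p, q} : Finset σ) := by
      intro i hi
      obtain ⟨j, -, hj⟩ := Finset.mem_image.1 (vars_rename _ _ hi)
      fin_cases j
      · exact Finset.mem_insert.2 (Or.inl hj.symm)
      · exact Finset.mem_insert.2 (Or.inr (Finset.mem_singleton.2 hj.symm))
    rw [Finset.sum_empty, add_zero, Finset.union_empty]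
    exact ⟨h1, fun b => Fibp.plane b inferInstance (Finset.card_pair hpq) h2 h1⟩
  | insert i t hi ih =>
    have h1 := ih fun j hj => ht j (Finset.mem_insert_of_mem hj)
    have h2 := ht i (Finset.mem_insert_self i t)
    have h3 : i ∉ ({p, q} ∪ t : Finset σ) := by
      intro h
      rcases Finset.mem_union.1 h with h | h
      · rcases Finset.mem_insert.1 h with h | h
        · exact h2.1 h
        · exact h2.2 (Finset.mem_singleton.1 h)
      · exact hi h
    have h4 : (rename ![p, q] g + ∑ i ∈ insert i t, X i ^ 2 : MvPolynomial σ k) =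
        rename ![p, q] g + ∑ i ∈ t, X i ^ 2 + X i ^ 2 := by
      rw [Finset.sum_insert hi]
      ring
    have h5 : ({p, q} ∪ insert i t : Finset σ) = {p, q} ∪ t ∪ {i} := by
      ext j
      simp only [Finset.mem_union, Finset.mem_insert, Finset.mem_singleton]
      tauto
    have h6 : (rename ![p, q] g + ∑ i ∈ t, X i ^ 2 : MvPolynomial σ k).vars ⊆ {p, q} ∪ t := by
      refine (vars_add_subset _ _).trans (Finset.union_subset_union ?_ ?_)
      · intro i hi
        obtain ⟨j, -, hj⟩ := Finset.mem_image.1 (vars_rename _ _ hi)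
        fin_cases j
        · exact Finset.mem_insert.2 (Or.inl hj.symm)
        · exact Finset.mem_insert.2 (Or.inr (Finset.mem_singleton.2 hj.symm))
      · refine (vars_sum_subset _ _).trans fun j hj => ?_
        obtain ⟨l, hl, hj⟩ := Finset.mem_biUnion.1 hj
        have h7 := vars_pow _ _ hj
        rw [vars_X, Finset.mem_singleton] at h7
        rw [h7]
        exact hl
    rw [h4, h5]
    exact ⟨nc_step h3 h1.1 h6, fun b => step h3 h1.1 h6 h1.2 b⟩

end

end SUSAux

open SUSAux in
theorem SUS : SUSStmt := by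
  intro k _ _ _ σ _ _ g p q hpq hg b
  classical
  have h1 := (all g hpq hg (Finset.univ.filter fun i => i ≠ p ∧ i ≠ q) (fun i hi =>
    (Finset.mem_filter.1 hi).2)).2 b
  have h2 : ({p, q} ∪ Finset.univ.filter fun i => i ≠ p ∧ i ≠ q : Finset σ) = Finset.univ := by
    ext j
    simp only [Finset.mem_union, Finset.mem_insert, Finset.mem_singleton, Finset.mem_filter,
      Finset.mem_univ, true_and, iff_true]
    tauto
  rw [h2] at h1
  obtain ⟨h3, h4⟩ := h1.p3
  have h5 := h4.equiv (Equiv.subtypeUnivEquiv fun x : σ => Finset.mem_univ x)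
  have h6 := rename_res h3
  have h7 : ((Equiv.subtypeUnivEquiv fun x : σ => Finset.mem_univ x :
      {x // x ∈ (Finset.univ : Finset σ)} ≃ σ) : {x // x ∈ (Finset.univ : Finset σ)} → σ) =
      Subtype.val := rfl
  rw [h7, h6] at h5
  exact h5

end Pool.Agent.H87.IS
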