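import Pool.Agent.H87.IS.Stmts2
import Pool.Agent.H87.IS.CRK

/-! # ISO: row TST, critical points which are formally sums of germs in at most two variables -/

set_option autoImplicit false

namespace Pool.Agent.H87.IS

open MvPolynomial Pool.Agent.H39.MonoR Pool.Agent.H75.Mono Pool.Agent.H87.QF

namespace TSTAux

open CRKAux

section

variable {k : Type} [Field k] {σ : Type}

open Classical in
/-- the coefficients of degree `< M` -/
noncomputable def tr [Finite σ] (M : ℕ) (h : MvPowerSeries σ k) : MvPolynomial σ k :=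
  ∑ m ∈ (Finsupp.finite_of_degree_le (σ := σ) M).toFinset,
    monomial m (if m.degree < M then MvPowerSeries.coeff m h else 0)

theorem coeff_tr [Finite σ] (M : ℕ) (h : MvPowerSeries σ k) (m : σ →₀ ℕ) :
    coeff m (tr M h) = if m.degree < M then MvPowerSeries.coeff m h else 0 := by
  classical
  rw [tr, coeff_sum]
  by_cases hm : m.degree < M
  · rw [Finset.sum_eq_single m]
    · rw [coeff_monomial, if_pos rfl]
    · intro b _ hb
      rw [coeff_monomial, if_neg hb]
    · intro hm'
      exact absurd (by simpa using hm.le) hm'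
  · rw [if_neg hm]
    refine Finset.sum_eq_zero fun b _ => ?_
    rw [coeff_monomial]
    split_ifs with h1 h2
    · rw [h1] at h2
      exact absurd h2 hm
    · rfl
    · rfl

/-- no coefficients in degrees `< M` -/
def PO (M : ℕ) (h : MvPowerSeries σ k) : Prop :=
  ∀ m : σ →₀ ℕ, m.degree < M → MvPowerSeries.coeff m h = 0

theorem PO.add {M : ℕ} {f g : MvPowerSeries σ k} (hf : PO M f) (hg : PO M g) : PO M (f + g) :=
  fun m hm => by rw [map_add, hf m hm, hg m hm, add_zero]

theorem PO.mul {M : ℕ} {f : MvPowerSeries σ k} (c : MvPowerSeries σ k) (hf : PO M f) :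
    PO M (c * f) := fun m hm => by
  classical
  rw [MvPowerSeries.coeff_mul]
  refine Finset.sum_eq_zero fun x hx => ?_
  have h1 : x.1 + x.2 = m := Finset.HasAntidiagonal.mem_antidiagonal.1 hx
  have h2 : x.1.degree + x.2.degree = m.degree := by rw [← h1, map_add]
  rw [hf x.2 (by omega), mul_zero]

theorem po_tr [Finite σ] (M : ℕ) (h : MvPowerSeries σ k) :
    PO M (h - (tr M h : MvPowerSeries σ k)) := fun m hm => by
  rw [map_sub, coeff_coe, coeff_tr, if_pos hm, sub_self]

theorem po_aeval [Finite σ] (M : ℕ) (φ : σ → MvPowerSeries σ k) (f : MvPolynomial σ k) :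
    PO M (aeval φ f - ((aeval (fun i => tr M (φ i)) f : MvPolynomial σ k) :
      MvPowerSeries σ k)) := by
  induction f using MvPolynomial.induction_on with
  | C a =>
    intro m _
    rw [algHom_C, algHom_C, map_sub, sub_eq_zero, algebraMap_eq, coe_C,
      MvPowerSeries.algebraMap_apply, Algebra.algebraMap_self_apply]
  | add p q hp hq =>
    have h := hp.add hq
    rw [map_add, map_add, coe_add, add_sub_add_comm]
    exact h
  | mul_X p i hp =>
    have h : aeval φ p * φ i - ((aeval (fun i => tr M (φ i)) p * tr M (φ i) :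
        MvPolynomial σ k) : MvPowerSeries σ k) =
        φ i * (aeval φ p - ((aeval (fun i => tr M (φ i)) p : MvPolynomial σ k) :
          MvPowerSeries σ k)) + ((aeval (fun i => tr M (φ i)) p : MvPolynomial σ k) :
          MvPowerSeries σ k) * (φ i - (tr M (φ i) : MvPowerSeries σ k)) := by
      rw [coe_mul]
      ring
    rw [map_mul, map_mul, aeval_X, aeval_X, h]
    exact (hp.mul _).add ((po_tr M (φ i)).mul _)

theorem coeff_zero_aeval (φ : σ → MvPolynomial σ k) (f : MvPolynomial σ k) :
    coeff 0 (aeval φ f) = eval (fun i => coeff 0 (φ i)) f := by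
  induction f using MvPolynomial.induction_on with
  | C a => simp
  | add p q hp hq => rw [map_add, coeff_add, hp, hq, map_add]
  | mul_X p i hp =>
    have h : ∀ P Q : MvPolynomial σ k, coeff 0 (P * Q) = coeff 0 P * coeff 0 Q := fun P Q =>
      map_mul (constantCoeff (R := k) (σ := σ)) P Q
    rw [map_mul, aeval_X, h, hp, map_mul, eval_X]

theorem coeff_F [Fintype σ] (G : MvPolynomial σ k) (e : σ → k) (M : ℕ) (m : σ →₀ ℕ) :
    coeff m (G + ∑ i, C (e i) * X i ^ M) = coeff m G + ∑ i, coeff m (C (e i) * X i ^ M) := by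
  rw [coeff_add, coeff_sum]

theorem coeff_single [Fintype σ] (G : MvPolynomial σ k) (e : σ → k) {M : ℕ} (hM : 2 ≤ M)
    (hG : G.totalDegree < M) (i : σ) :
    coeff (Finsupp.single i M) (G + ∑ i, C (e i) * X i ^ M) = e i := by
  classical
  rw [coeff_F, coeff_eq_zero_of_totalDegree_lt, zero_add, Finset.sum_eq_single i]
  · rw [coeff_C_mul, coeff_X_pow, if_pos rfl, mul_one]
  · intro j _ hj
    rw [coeff_C_mul, coeff_X_pow, if_neg, mul_zero]
    intro h
    rcases (Finsupp.single_eq_single_iff _ _ _ _).1 h with h | h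
    · exact hj h.1
    · omega
  · intro h
    exact absurd (Finset.mem_univ i) h
  · rw [← Finsupp.degree_apply, Finsupp.degree_single]
    exact hG

theorem blk_F [Fintype σ] {c : σ → σ} {G : MvPolynomial σ k} (hG : ∀ m, coeff m G ≠ 0 → Blk c m)
    (e : σ → k) (M : ℕ) (m : σ →₀ ℕ) (hm : coeff m (G + ∑ i, C (e i) * X i ^ M) ≠ 0) :
    Blk c m := by
  classical
  by_cases h : coeff m G = 0
  · rw [coeff_F, h, zero_add] at hm
    obtain ⟨i, -, hi⟩ := Finset.exists_ne_zero_of_sum_ne_zero hm
    rw [coeff_C_mul, coeff_X_pow] at hi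
    have h1 : Finsupp.single i M = m := by
      by_contra h2
      rw [if_neg h2, mul_zero] at hi
      exact hi rfl
    intro a b ha hb
    rw [← h1, Finsupp.single_apply] at ha hb
    have ha' : i = a := by
      by_contra h2
      rw [if_neg h2] at ha
      exact ha rfl
    have hb' : i = b := by
      by_contra h2
      rw [if_neg h2] at hb
      exact hb rfl
    rw [← ha', ← hb']
  · exact hG m h

end

end TSTAux

open CRKAux TSTAux in
theorem TST (hSTR : STRStmt) (hSTT : STTStmt) (hDTI : DTIStmt) (hTSB : TSBStmt)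
    (hTSP : TSPStmt) : TSTStmt := by
  intro k _ _ _ σ _ _ _ f x0 c φ hfin hx0 hφ hJ hc hB
  have := charZero k
  obtain ⟨N, hN, hS⟩ := hSTR k σ f x0 hfin hx0
  set M₀ := 2 * N + 3 with hM₀
  set ψ : σ → MvPolynomial σ k := fun i => tr M₀ (φ i) with hψ
  have hψ0 : ∀ i, coeff 0 (ψ i) = x0 i := by
    intro i
    rw [hψ]
    simp only
    rw [coeff_tr, map_zero, if_pos (by omega), ← hφ i, MvPowerSeries.coeff_zero_eq_constantCoeff_apply]
  have hψJ : (jac ψ).det ≠ 0 := by
    have h1 : jac ψ = Matrix.of fun i j => MvPowerSeries.coeff (Finsupp.single j 1) (φ i) := by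
      ext i j
      simp only [jac, Matrix.of_apply, hψ]
      rw [coeff_tr, Finsupp.degree_single, if_pos (by omega)]
    rw [h1]
    exact hJ
  have hS1 : Star N (aeval ψ f) := star_phi hSTT hS hψ0 hψJ
  set G : MvPolynomial σ k := tr M₀ ((aeval ψ f : MvPolynomial σ k) : MvPowerSeries σ k) with hG
  have hGc : ∀ m, coeff m G = if m.degree < M₀ then coeff m (aeval ψ f) else 0 := fun m => by
    rw [hG, coeff_tr, coeff_coe]
  have hG0 : coeff 0 G = 0 := by
    rw [hGc, map_zero, if_pos (by omega), coeff_zero_aeval, funext hψ0]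
    exact hx0.1
  have hGB : ∀ m, coeff m G ≠ 0 → Blk c m := by
    intro m hm
    rw [hGc] at hm
    by_cases hd : m.degree < M₀
    · rw [if_pos hd] at hm
      refine hB m ?_
      have h1 := po_aeval M₀ φ f m hd
      rw [map_sub, sub_eq_zero, coeff_coe] at h1
      rw [h1]
      exact hm
    · rw [if_neg hd] at hm
      exact absurd rfl hm
  set M := M₀ + G.totalDegree + 1 with hM
  obtain ⟨e, he, hcr⟩ := hTSB k σ c G M hc hG0 hGB (by omega) (by omega)
  have h2 : Ord M₀ (aeval ψ f - (G + ∑ i, C (e i) * X i ^ M)) := by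
    rw [← sub_sub]
    refine ord_sub (fun m hm => ?_) (ord_sum _ fun i _ => ord_mono (ord_pow (e i) i) (by omega))
    rw [coeff_sub, hGc, if_pos hm, sub_self]
  have h3 : Star N (G + ∑ i, C (e i) * X i ^ M) := star_congr hS1 (ord_mono h2 (by omega))
  refine ⟨G + ∑ i, C (e i) * X i ^ M, hDTI k σ f _ x0 ψ N M₀ hN (by omega) h3 hψ0 hψJ h2, ?_, ?_⟩
  · refine hTSP k σ c _ hc (blk_F hGB e M) (fun i => ⟨Finsupp.single i M, ?_, ?_⟩) 0
    · rw [coeff_single G e (by omega) (by omega)]
      exact he i
    · rw [Finsupp.single_eq_same]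
      omega
  · rintro x ⟨h4, h5⟩
    have h6 := hcr (fun i => algebraMap k ℂ (x i)) (by
      rw [aeval_map_eq (y := x), h4, map_zero]) (fun i => by
      rw [aeval_map_eq (y := x), h5, map_zero])
    rw [Set.mem_singleton_iff]
    funext i
    have h7 := congrFun h6 i
    simpa using h7

end Pool.Agent.H87.IS
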