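import Pool.Agent.H87.QF.CLS
import Pool.Agent.H75.Plc.P0

/-!
# Project ISO: isolated singular points and formal changes of coordinates (MP_432c1b_ag)

GOAL. `k ⊂ ℂ` algebraically closed, `f ∈ k[x_1..x_n]`, `{f = a}` has finitely many critical points. Suppose that
at each of them `f - a` is, after a formal change of coordinates, a polynomial `F` with `P3 F 0` whose only
critical point on `{F = 0}` is the origin; or that the Hessian has rank `≥ n - 2` there. Then `P3 f a`
(`Pool.Agent.H75.Mono.P3`): the strong motivic monodromy conjecture holds for `f`, and `f` can be used as an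
input of the gates of helper75 (new constructor of PlaneComposites).

Every row `XXX` is a `def XXXStmt : Prop`; prove it as `theorem XXX (h₁ : YYYStmt) … : XXXStmt` (hypotheses =
the rows of the column `needs`, in that order; fewer is fine) in `Pool/Agent/H87/IS/XXX.lean` (or
`Pool/Agent/H<k>/IS/XXX.lean`), `namespace Pool.Agent.H87.IS`, importing `Pool.Agent.H87.IS.Stmts` only (plus
Mathlib / H75 files); helper lemmas in a sub-namespace `XXXAux`.
Axioms only `propext`, `Classical.choice`, `Quot.sound`; no `native_decide`, no straight double quotes.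

Tools of helper75 (`Pool/Agent/H75/Mono/*.lean`, `Pool/Agent/H75/Fib/*.lean`, `Pool/Agent/H75/Plc/*.lean`):
`mo_bij`, `mo_split`, `mo_union`, `mo_biUnion` (MO.lean), `ICons.*` (IC.lean), `PFun.*`, `PMap.*` (PF.lean),
`coeff_arc`, `ICons.hit`, `mo_nc` (Fib/NCR.lean), `RatF.*` (RA, RB, SA.lean), `Inv.of_local` (Plc/GLO.lean: the
model of LOG, with its helper lemmas), `sard` (Plc/SARD.lean), `exists_res` (Plc/BEZ.lean), `charZero k`.
-/

set_option autoImplicit false

namespace Pool.Agent.H87.IS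

open MvPolynomial Pool.Agent.H39.MonoR Pool.Agent.H75.Mono Pool.Agent.H87.QF

/-! ## definitions -/

section Defs

variable {k : Type} [Field k] {σ : Type}

/-- the critical points of `f` on `{f = 0}` with coordinates in `k` -/
def Crit (f : MvPolynomial σ k) : Set (σ → k) :=
  {x | eval x f = 0 ∧ ∀ i, eval x (pderiv i f) = 0}

/-- the Hessian matrix -/
noncomputable def hess (f : MvPolynomial σ k) (x : σ → k) : Matrix σ σ k :=
  Matrix.of fun i j => eval x (pderiv i (pderiv j f))

/-- all monomials of degree less than `M` have coefficient zero -/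
def Ord (M : ℕ) (f : MvPolynomial σ k) : Prop := ∀ m : σ →₀ ℕ, m.degree < M → coeff m f = 0

/-- the Jacobian matrix at the origin: the coefficients of `X_j` in `φ_i` -/
noncomputable def jac (φ : σ → MvPolynomial σ k) : Matrix σ σ k :=
  Matrix.of fun i j => coeff (Finsupp.single j 1) (φ i)

/-- `φ` is a formal change of coordinates with `φ(0) = x0` and `f(φ) = F` -/
def FEq [Fintype σ] [DecidableEq σ] (f : MvPolynomial σ k) (x0 : σ → k) (F : MvPolynomial σ k) :
    Prop :=
  ∃ φ : σ → MvPowerSeries σ k, (∀ i, MvPowerSeries.constantCoeff (φ i) = x0 i) ∧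
    (Matrix.of fun i j => MvPowerSeries.coeff (Finsupp.single j 1) (φ i)).det ≠ 0 ∧
    aeval φ f = (F : MvPowerSeries σ k)

/-- the partial derivative of a power series -/
noncomputable def pd (i : σ) (h : MvPowerSeries σ k) : MvPowerSeries σ k := fun m =>
  ((m i : k) + 1) * MvPowerSeries.coeff (m + Finsupp.single i 1) h

/-- all elements of `V` are killed by a power of the maximal ideal of the origin -/
def Tor {V : Type} [AddCommGroup V] [Module k V] (ρ : MvPolynomial σ k →ₐ[k] Module.End k V) :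
    Prop := ∀ v : V, ∃ N : ℕ, ∀ m : σ →₀ ℕ, N ≤ m.degree → ρ (monomial m 1) v = 0

/-- a chain with support in the origin, with `F e_0 = 0` and `(∂_i F) e_0 = 0` -/
def LSR (k : Type) [Field k] {σ : Type} (F : MvPolynomial σ k) (s : ℚ) : Prop :=
  ∃ c : Chain k F s, c.ρ F (c.e 0) = 0 ∧ (∀ i, c.ρ (pderiv i F) (c.e 0) = 0) ∧ Tor c.ρ

/-- every monomial of degree `N` is in the ideal of the `∂_i G`, up to monomials of higher degree -/
def Star [Fintype σ] (N : ℕ) (G : MvPolynomial σ k) : Prop :=
  ∀ m : σ →₀ ℕ, m.degree = N → ∃ c : σ → MvPolynomial σ k,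
    Ord (N + 1) (monomial m 1 - ∑ i, c i * pderiv i G)

/-- `g(X_p, X_q) + Σ X_i²`, the sum over the `i ≠ p, q` -/
noncomputable def susp [Fintype σ] [DecidableEq σ] (p q : σ) (g : MvPolynomial (Fin 2) k) :
    MvPolynomial σ k :=
  rename ![p, q] g + ∑ i ∈ Finset.univ.filter (fun i => i ≠ p ∧ i ≠ q), X i ^ 2

variable [Algebra k ℂ]

/-- the class of the arcs with origin `x0` and `f(φ) = c t^d mod t^(d+1)`, times `L^(-nd)` -/
noncomputable def lz [Finite σ] (f : MvPolynomial σ k) (x0 : σ → k) (d : ℕ) (t : Test k) : M k :=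
  mo k {x : (σ × Fin (d + 1) → ℂ) × t.E | x.2 ∈ t.W ∧ (∀ i, org x.1 i = algebraMap k ℂ (x0 i)) ∧
    Hit f d x.1 (t.c x.2)} * ↑(Lu k ^ (-((Nat.card σ * d : ℕ) : ℤ)))

/-- the relative local series at `x0` has denominators in `S` -/
def LRat [Finite σ] (f : MvPolynomial σ k) (x0 : σ → k) (S : Set (ℤ × ℕ)) : Prop :=
  RatF (Lu k) S fun t : Test k => PowerSeries.mk fun d =>
    if d = 0 then 0 else lz f x0 d t - lz f x0 d t.zr

end Defs

/-! ## Part A: formal changes of coordinates -/

/-- **TOR.** The origin is the only critical point on `{F = 0}`: the chains have support in the origin.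
PROOF. Let `I` be the ideal of `F` and the `∂_i F`. Its zeros in `σ → k` are in `{0}`, so by the Nullstellensatz
(`MvPolynomial.vanishingIdeal_zeroLocus_eq_radical`, `k` algebraically closed, `σ` finite) every `X_i` is in the
radical of `I`; hence there is `N₀` with `monomial m 1 ∈ I` for all `m` of degree `≥ N₀` (such a monomial is
divisible by `X_i^e` for some `i` if `N₀ = |σ| e + 1`). Let
`Γ = {v | ∃ N, ∀ m, N ≤ degree m → ρ(X^m) v = 0}` in the module `V` of the given chain `c`. `Γ` is a submodule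
(maximum of the bounds), stable under `ρ` (which is commutative), and stable under `D_i`:
`ρ(X^m)(D_i v) = D_i(ρ(X^m) v) - ρ(∂_i X^m) v` by `leib`, `∂_i X^m` is a multiple of a monomial of degree
`degree m - 1` or zero, so the bound `N + 1` works. All `e_j` are in `Γ`, by induction on `j`. `e_0` is killed by
`I` (`c.ρ` is an algebra homomorphism), so by all monomials of degree `≥ N₀`. Let `N` be a bound for `e_j`, then
`N + 1` is a bound for all `D_i e_j`. By `mul`, `ρ F e_(j+1) = e_j`; by `der`,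
`D_i e_j = -(s+j) ρ(∂_i F) e_(j+1)` with `s + j ≠ 0` in `k` (characteristic zero, `s > 0`). So for `degree m ≥ N + 1`
the element `ρ(X^m) e_(j+1)` is killed by `ρ F` and all `ρ(∂_i F)`, so by `I`, so by the monomials of degree
`≥ N₀`: `N + 1 + N₀` is a bound for `e_(j+1)` (a monomial of degree `≥ a + b` is a product of monomials of degree
`≥ a` and `≥ b`). The new chain is `Γ` with the restrictions of `ρ`, `D`, `e`. -/
def TORStmt : Prop :=
  ∀ (k : Type) [Field k] [CharZero k] [IsAlgClosed k] (σ : Type) [Fintype σ] [DecidableEq σ]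
    (F : MvPolynomial σ k) (s : ℚ), 0 < s → Crit F ⊆ {0} → SRs k F s → LSR k F s

/-- **PSA.** Power series act on torsion modules.
PROOF. For `h : MvPowerSeries σ k` and `N` let `tr N h` be the polynomial with the coefficients of `h` in the
degrees `< N` (the set of the `m` with `m.degree < N` is finite, `σ` being finite; or use Mathlib's
truncations). If `N` is a bound for `v` (`ρ(X^m) v = 0` for `degree m ≥ N`), then `ρ(p) v = 0` for each
polynomial `p` with `Ord N p`, so `ρ(tr N h) v` does not change if `N` is replaced by a larger number. Define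
`ρ'(h) v := ρ(tr N h) v`, `N` any bound for `v` (for instance the chosen one). It is linear in `v` (take a common
bound), additive and `k`-linear in `h`, `ρ'(1) = 1`; multiplicative: `N` a bound for `v` is one for `ρ'(h') v`
(`ρ` is commutative), and `tr N h * tr N h' - tr N (h h')` has `Ord N`. (i) holds since `p - tr N p` has
`Ord N`. (ii): `tr N h = 0`. (iii): let `N` be a bound for `v`; `N + 1` is a bound for `D v` (see TOR: by `leib`),
and `D(ρ(tr (N+1) h) v) = ρ(∂_i (tr (N+1) h)) v + ρ(tr (N+1) h) (D v)`, where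
`∂_i (tr (N+1) h) = tr N (pd i h)`. -/
def PSAStmt : Prop :=
  ∀ (k : Type) [Field k] (σ : Type) [Fintype σ] [DecidableEq σ] (V : Type) [AddCommGroup V]
    [Module k V] (ρ : MvPolynomial σ k →ₐ[k] Module.End k V), Tor ρ →
    ∃ ρ' : MvPowerSeries σ k →ₐ[k] Module.End k V,
      (∀ p : MvPolynomial σ k, ρ' (p : MvPowerSeries σ k) = ρ p) ∧
      (∀ (h : MvPowerSeries σ k) (v : V) (N : ℕ),
        (∀ m : σ →₀ ℕ, N ≤ m.degree → ρ (monomial m 1) v = 0) →
        (∀ m : σ →₀ ℕ, m.degree < N → MvPowerSeries.coeff m h = 0) → ρ' h v = 0) ∧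
      ∀ (D : Module.End k V) (i : σ),
        (∀ p v, D (ρ p v) = ρ (pderiv i p) v + ρ p (D v)) →
        ∀ h v, D (ρ' h v) = ρ' (pd i h) v + ρ' h (D v)

/-- **TRC** (needs PSA). Transport of chains.
PROOF. Let `φ` be the change of coordinates, `c = (V, ρ, D, e)` a chain of `F` with `Tor`, `ρ'` from PSA.
`pd l` is a `k`-derivation of `MvPowerSeries σ k` (compare coefficients; it agrees with `pderiv l` on
polynomials, and it is continuous for the order), so by induction on `p`
(`MvPolynomial.induction_on`) `pd l (aeval φ p) = Σ_m aeval φ (∂_m p) * pd l (φ_m)`. The matrix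
`J_ml = pd l (φ_m)` has a determinant with nonzero constant coefficient (the constant coefficient of `pd l h` is
`coeff (single l 1) h`), so it is invertible over `MvPowerSeries σ k`: let `G` be its inverse,
`Σ_l J_ml G_li = δ_mi`. Put `ρ₁(p) = ρ'(aeval φ p)` and `D₁ i = Σ_l ρ'(G_li) ∘ D l`. Then
`D₁ i (ρ₁(p) v) = Σ_l ρ'(G_li) (ρ'(pd l (aeval φ p)) v + ρ'(aeval φ p)(D l v))`
`= ρ₁(∂_i p) v + ρ₁(p) (D₁ i v)` (all `ρ'(…)` commute). With the same `e`:
`ρ₁(f) e_(j+1) = ρ'(F) e_(j+1) = ρ(F) e_(j+1) = e_j`;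
`D₁ i e_j = Σ_l ρ'(G_li)(-(s+j)) ρ(∂_l F) e_(j+1)`, and `ρ(∂_l F) = ρ'(pd l (aeval φ f)) =
Σ_m ρ₁(∂_m f) ρ'(J_ml)`, so this is `-(s+j) ρ₁(∂_i f) e_(j+1)`. In the same way
`ρ₁(∂_i f) e_0 = Σ_l ρ'(G_li) ρ(∂_l F) e_0 = 0` and `ρ₁(f) e_0 = ρ(F) e_0 = 0`. -/
def TRCStmt : Prop :=
  ∀ (k : Type) [Field k] (σ : Type) [Fintype σ] [DecidableEq σ] (f F : MvPolynomial σ k)
    (x0 : σ → k) (s : ℚ), FEq f x0 F → LSR k F s → SRs k f s

/-- **ZTR.** Transport of the local series.
PROOF. Let `φ` be the change of coordinates and `φ'_i` the polynomial with the coefficients of `φ_i` in the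
degrees `≤ d`. `aeval φ' f - F` has `Ord (d + 1)` (truncation is a ring homomorphism modulo the ideal of the
series of order `> d`). Consider the map from
`{(ψ, w) | w ∈ W, org ψ = 0, Hit F d ψ (c w)}` to `{(φ, w) | w ∈ W, org φ = x0, Hit f d φ (c w)}` given by
`(i, l) ↦ coeff l (aeval (arc ψ) φ'_i)`: a polynomial map over `k` (`PMap`; the coefficients of
`arcEval k ψ p` are polynomial functions of `ψ`, see `ICons.hit` and its lemmas). It is well defined and
`Hit f d (image) c ↔ Hit F d ψ c`: modulo `t^(d+1)`, `f(arc (image)) = f(φ'(arc ψ)) = (aeval φ' f)(arc ψ)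
= F(arc ψ)`, since the arcs `arc ψ i` have no constant term, so a monomial of degree `> d` in them vanishes
modulo `t^(d+1)`. It is bijective onto `{org = x0}`: the coefficient of `t^l`, `l ≥ 1`, of the `i`-th component of
the image is `Σ_j J_ij ψ_(j,l) + (a function of the ψ_(j,l'), 1 ≤ l' < l)`, `J` = the Jacobian matrix
(`det ≠ 0`, also in `ℂ`); so the values `ψ_(·,l)` can be recovered recursively and uniquely. Now `mo_bij`. -/
def ZTRStmt : Prop :=
  ∀ (k : Type) [Field k] [Algebra k ℂ] (σ : Type) [Fintype σ] [DecidableEq σ]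
    (f F : MvPolynomial σ k) (x0 : σ → k), FEq f x0 F →
    ∀ (d : ℕ) (t : Test k), 1 ≤ d → lz f x0 d t = lz F 0 d t

/-- **LOG.** From the local series to the relative series, for finitely many critical points.
PROOF. As `Inv.of_local` (Plc/GLO.lean), simpler. For `d ≥ 1` split the set of `zt f d t` according to the
origin: `org φ = p` for one of the `p ∈ P`, or the origin is none of the points `p ∈ P`; in the second case
`f(org φ) = 0` (the coefficient of `t^0`), so `∃ i, ∂_i f(org φ) ≠ 0` by the hypothesis on `P`. Let `Q` be the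
(constructible) set of the points which are not in `P` and satisfy `f = 0`. So
`zt f d t = Σ_(p ∈ P) lz f p d t + mo {… org φ ∈ Q, ∃ i, ∂_i f(org φ) ≠ 0, Hit f d φ (c w)} L^(-nd)`, and by
`mo_nc` the last class does not change if `t` is replaced by `t.zr`. The same for `t.zr`. So
`zt f d t - zt f d t.zr = Σ_p (lz f p d t - lz f p d t.zr)` for `d ≥ 1`. Finally `zt f d t.zr = u_d · mass t`
with `u_d = zt f d` of the one-point test with `c = 0` (`mo_prod`; this is used in `Inv.of_local`, too). The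
coefficient `d = 0` is irrelevant (`RatF` asks for large `n` only; `RatF.of_fin`, `RatF.add`). -/
def LOGStmt : Prop :=
  ∀ (k : Type) [Field k] [Algebra k ℂ] [IsAlgClosed k] (σ : Type) [Fintype σ] [DecidableEq σ]
    (f : MvPolynomial σ k) (P : Finset (σ → k)) (S : Set (ℤ × ℕ)),
    (∀ x : σ → ℂ, aeval x f = 0 → (∀ i, aeval x (pderiv i f) = 0) →
      ∃ p ∈ P, ∀ i, x i = algebraMap k ℂ (p i)) →
    (∀ p ∈ P, LRat f p S) → Inv f S

/-- **GTL.** From the relative series to the local series, for one critical point.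
PROOF. `Inv f S` says that `t ↦ Σ_d (zt f d t - u_d mass t) T^d` is `RatF` with `S`. Substitute `t.zr` for `t`
(`RatF.comp`) and subtract (`RatF.sub`); `mass t.zr = mass t`. So `t ↦ Σ_d (zt f d t - zt f d t.zr) T^d` is
`RatF` with `S`, also after the coefficient of `T^0` is replaced by `0` (subtract a family with coefficients in
degree `0` only, `RatF.of_fin`). For `d ≥ 1`, as in LOG with `P = {0}`:
`zt f d t - zt f d t.zr = lz f 0 d t - lz f 0 d t.zr` (the arcs with noncritical origin cancel by `mo_nc`). -/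
def GTLStmt : Prop :=
  ∀ (k : Type) [Field k] [Algebra k ℂ] (σ : Type) [Fintype σ] [DecidableEq σ]
    (f : MvPolynomial σ k) (S : Set (ℤ × ℕ)),
    (∀ x : σ → ℂ, aeval x f = 0 → (∀ i, aeval x (pderiv i f) = 0) → x = 0) →
    Inv f S → LRat f 0 S

/-- **KPT.** If there are finitely many critical points with coordinates in `k`, there are no other ones.
PROOF. Let `P = Crit f`, finite. Let `j : σ`. The polynomial `g_j = ∏_(p ∈ P) (X_j - C (p j))` vanishes at all
zeros in `σ → k` of the ideal `I` of `f` and the `∂_i f`, so by the Nullstellensatz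
(`MvPolynomial.vanishingIdeal_zeroLocus_eq_radical`) `g_j^e ∈ I`, `e ≥ 1`. Let `x : σ → ℂ` be a zero of `f` and
all `∂_i f`. Then `aeval x (g_j) = 0` (`aeval x` kills `I`), so `x j = algebraMap k ℂ (p j)` for some `p ∈ P`
(depending on `j`): `x j = algebraMap k ℂ (y j)` for some `y : σ → k`. As `algebraMap k ℂ` is injective, `y` is a
zero of `f` and the `∂_i f` (`aeval (algebraMap ∘ y) f = algebraMap (eval y f)`), so `y ∈ P`. -/
def KPTStmt : Prop :=
  ∀ (k : Type) [Field k] [Algebra k ℂ] [IsAlgClosed k] (σ : Type) [Fintype σ] [DecidableEq σ]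
    (f : MvPolynomial σ k), (Crit f).Finite →
    ∀ x : σ → ℂ, aeval x f = 0 → (∀ i, aeval x (pderiv i f) = 0) →
      ∃ p ∈ Crit f, ∀ i, x i = algebraMap k ℂ (p i)

/-- **ISO** (needs TOR, TRC, ZTR, LOG, GTL, KPT). Formal changes of coordinates at isolated points.
PROOF. Put `g = f - C a`, `P = Crit g` as a finset. For `p ∈ P` let `F_p` be as in the hypothesis, `S_p` the
finite set of `P3 F_p 0` (`F_p - C 0 = F_p`), `S = ⋃_p S_p` (`Finset.biUnion`). For `p ∈ P`: by KPT for `F_p`
(`Crit F_p ⊆ {0}` is finite) the only critical point of `F_p` in `σ → ℂ` on `{F_p = 0}` is `0`; by GTL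
`LRat F_p 0 S_p`; by ZTR and `RatF.congr`, `LRat g p S_p` (both `t` and `t.zr`; `d ≥ 1`), so `LRat g p S`
(`RatF.mono`). By KPT for `g` and LOG, `Inv g S`. For `q ∈ S_p`: `q.1 < 0 < q.2`, `0 < -q.1/q.2`, so by TOR
`LSR k F_p (-q.1/q.2)`, by TRC `SRs k g (-q.1/q.2)`. -/
def ISOStmt : Prop :=
  ∀ (k : Type) [Field k] [Algebra k ℂ] [IsAlgClosed k] (σ : Type) [Fintype σ] [DecidableEq σ]
    (f : MvPolynomial σ k) (a : k), (Crit (f - C a)).Finite →
    (∀ p ∈ Crit (f - C a), ∃ F : MvPolynomial σ k, FEq (f - C a) p F ∧ P3 F 0 ∧ Crit F ⊆ {0}) →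
    P3 f a

/-! ## Part B: corank at most two -/

/-- **QDG.** Normal form of the quadratic part.
PROOF. Over a field of characteristic zero a symmetric matrix is diagonalised by congruence (Mathlib:
`QuadraticMap.equivalent_weightedSumSquares`, `LinearMap.BilinForm.exists_orthogonal_basis`; or row DIA of
`Pool/Agent/H87/QF/DIA.lean`, a field being a valuation ring): `A₀ᵀ H A₀ = diagonal U`, `A₀` invertible. The rank
does not change, so `U` has at most two zeros (`Matrix.rank_diagonal`). Permute the basis so that all zeros are at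
the positions `p`, `q`; multiply the basis vector at each position `i ≠ p, q` by a square root of `2 / U_i`
(`IsAlgClosed.exists_pow_nat_eq`, `IsAlgClosed.exists_eq_mul_self`). -/
def QDGStmt : Prop :=
  ∀ (k : Type) [Field k] [CharZero k] [IsAlgClosed k] (σ : Type) [Fintype σ] [DecidableEq σ]
    (H : Matrix σ σ k) (p q : σ), H.IsSymm → p ≠ q → Fintype.card σ ≤ H.rank + 2 →
    ∃ (A : Matrix σ σ k) (U : σ → k), A.det ≠ 0 ∧ A.transpose * H * A = Matrix.diagonal U ∧
      ∀ i, i ≠ p → i ≠ q → U i = 2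

/-- **TQ.** Taylor expansion of order two, in the coordinates `A`.
PROOF. Let `φ_i = C (x0 i) + Σ_j C (A_ij) X_j`. The `k`-linear maps `f ↦ coeff m (aeval φ f)`, `m.degree ≤ 2`, can
be computed by `MvPolynomial.induction_on` on `f`, or better: put `G = aeval φ f`; for every polynomial `G` in
characteristic zero `coeff 0 G = eval 0 G`, `coeff (single i 1) G = eval 0 (∂_i G)`,
`coeff (single i 2) G = eval 0 (∂_i ∂_i G) / 2`, `coeff (single i 1 + single j 1) G = eval 0 (∂_i ∂_j G)`
(`i ≠ j`) (check on monomials), and by the chain rule (`∂_i (aeval φ f) = Σ_a A_ai aeval φ (∂_a f)`, by induction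
on `f`) `eval 0 G = f(x0) = 0`, `eval 0 (∂_i G) = Σ_a A_ai (∂_a f)(x0) = 0`,
`eval 0 (∂_i ∂_j G) = Σ_ab A_ai A_bj (∂_a ∂_b f)(x0) = (Aᵀ H A)_ij = U_i δ_ij`. Compare with the coefficients of
`Σ_i C (U_i / 2) X_i²`. -/
def TQStmt : Prop :=
  ∀ (k : Type) [Field k] [CharZero k] (σ : Type) [Fintype σ] [DecidableEq σ]
    (f : MvPolynomial σ k) (x0 : σ → k) (A : Matrix σ σ k) (U : σ → k), x0 ∈ Crit f →
    A.transpose * hess f x0 * A = Matrix.diagonal U →
    Ord 3 (aeval (fun i => C (x0 i) + ∑ j, C (A i j) * X j) f - ∑ i, C (U i / 2) * X i ^ 2)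

/-- **SPL.** The splitting lemma, up to any order.
PROOF. Induction on `M`. `M = 3`: `φ_i = C (x0 i) + Σ_j C (A_ij) X_j`, `g = C (U_p/2) X_0² + C (U_q/2) X_1²`:
`Σ_i C (U_i/2) X_i² = susp p q g` as `U_i/2 = 1` for `i ≠ p, q`; `jac φ = A`. Step: let `φ`, `g` be as in the
conclusion for `M ≥ 3`, `R = aeval φ f - susp p q g`, `Ord M R`. Every monomial which contains some `X_i`,
`i ≠ p, q`, is `X_i` times a monomial: `R = rename ![p, q] R₀ + Σ' X_i R_i` with `Ord M R₀`, `Ord (M-1) R_i` (sort the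
monomials of `R` by the first such `i` for some linear order of `σ`, or: induct on the set of these `i`, splitting
off `X_i * (R divided by X_i)`, cf. `MvPolynomial.divMonomial`, `modMonomial`; what remains is a polynomial in
`X_p, X_q`, a `rename`). Let `θ_i = X_i - C (1/2) R_i` for `i ≠ p, q`, `θ_p = X_p`, `θ_q = X_q`. Then
`aeval θ (susp p q g) = rename ![p, q] g + Σ' (X_i - R_i/2)² = susp p q g - Σ' X_i R_i + Σ' R_i²/4`, with
`Ord (2M-2) (R_i²)`, `2M - 2 ≥ M + 1`; and `aeval θ R - R` has `Ord (2M-2)`: more generally if all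
`θ_i - X_i` have `Ord e`, `e ≥ 1`, and `Ord M R`, then `Ord (M - 1 + e) (aeval θ R - R)` (on monomials:
telescope the product, each `θ_i` has `Ord 1`). So
`aeval θ (aeval φ f) = susp p q (g + R₀) + (Ord (M+1))`. The new map is `φ'_i = aeval θ (φ_i)`
(`aeval φ' f = aeval θ (aeval φ f)`); its constant coefficients and its linear parts are those of `φ`
(`Ord 2 (θ_i - X_i)` since `M - 1 ≥ 2`). -/
def SPLStmt : Prop :=
  ∀ (k : Type) [Field k] [CharZero k] (σ : Type) [Fintype σ] [DecidableEq σ]
    (f : MvPolynomial σ k) (x0 : σ → k) (A : Matrix σ σ k) (U : σ → k) (p q : σ), p ≠ q →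
    A.det ≠ 0 → (∀ i, i ≠ p → i ≠ q → U i = 2) →
    Ord 3 (aeval (fun i => C (x0 i) + ∑ j, C (A i j) * X j) f - ∑ i, C (U i / 2) * X i ^ 2) →
    ∀ M : ℕ, 3 ≤ M → ∃ (φ : σ → MvPolynomial σ k) (g : MvPolynomial (Fin 2) k),
      (∀ i, coeff 0 (φ i) = x0 i) ∧ (jac φ).det ≠ 0 ∧ Ord 2 g ∧ Ord M (aeval φ f - susp p q g)

/-- **STR.** Isolated critical points: the condition `Star`.
PROOF. Put `G = aeval (fun i => C (x0 i) + X i) f`; `eval y G = eval (x0 + y) f`,
`eval y (∂_i G) = eval (x0 + y) (∂_i f)` (chain rule), so `Crit G = {y | x0 + y ∈ Crit f}` is finite and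
contains `0`. By `sard` (Plc/SARD.lean, `R = k`) there is a finset `T` with `eval y G ∈ T` for all `y` with
`∂_i G (y) = 0` for all `i`. Let `h = ∏_(a ∈ T, a ≠ 0) (G - C a)`: `eval 0 h ≠ 0` as `eval 0 G = 0`. For
`y ∈ Crit G`, `y ≠ 0`, choose `j` with `y j ≠ 0` and put `ℓ_y = X_j - C (y j)`; let `q` be the product of these:
`eval 0 q ≠ 0`. The polynomial `q h X_i` vanishes at all common zeros `y` of the `∂_j G` in `σ → k`: if
`eval y G ≠ 0` then `eval y h = 0`; otherwise `y ∈ Crit G` and `y = 0` or `eval y q = 0`. Nullstellensatz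
(`MvPolynomial.vanishingIdeal_zeroLocus_eq_radical`): there is `e ≥ 1` with `(q h X_i)^e` in the ideal `J` of the
`∂_j G`, for all `i`. `(q h)^e = C γ + r` with `γ ≠ 0`, `Ord 1 r`. So
`X_i^e = C γ⁻¹ ((q h X_i)^e - r X_i^e)` is the sum of an element of `J` and a polynomial with `Ord (e+1)`.
`N = |σ| e + 1`: a monomial of degree `N` is `X^m = X_i^e X^(m')` for some `i`, `degree m' = N - e`, so it is an
element of `J` plus a polynomial with `Ord (N+1)`. (An element of the ideal span of the range of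
`i ↦ ∂_i G` is of the form `Σ_i c_i ∂_i G`, `Ideal.mem_span_range_iff_exists_fun`.) -/
def STRStmt : Prop :=
  ∀ (k : Type) [Field k] [CharZero k] [IsAlgClosed k] (σ : Type) [Fintype σ] [DecidableEq σ]
    (f : MvPolynomial σ k) (x0 : σ → k), (Crit f).Finite → x0 ∈ Crit f →
    ∃ N : ℕ, 1 ≤ N ∧ Star N (aeval (fun i => C (x0 i) + X i) f)

/-- **STT.** `Star` is stable under changes of coordinates.
PROOF. Let `G' = aeval θ G`. (0) `aeval θ` maps polynomials with `Ord M` to polynomials with `Ord M` (the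
constant terms of the `θ_i` vanish). (1) For `degree m = N` there is a polynomial `P_m`, homogeneous of degree `N`,
with `Ord (N+1) (X^m - aeval θ P_m)`: if `B` is the inverse of the matrix `jac θ`, then
`X_j - Σ_i C (B_ji) θ_i` has `Ord 2`; take `P_m = ∏_j (Σ_i C (B_ji) X_i)^(m j)` (telescope the product). (2) By
`Star N G` for the monomials of `P_m` (linear combinations): `P_m - Σ_i c_i ∂_i G` has `Ord (N+1)`; apply
`aeval θ`: `X^m - Σ_i aeval θ c_i * aeval θ (∂_i G)` has `Ord (N+1)`. (3) By the chain rule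
`∂_l G' = Σ_i aeval θ (∂_i G) * ∂_l θ_i`. Let `J_il = ∂_l θ_i` (a matrix over polynomials); multiplying with the
adjugate, `det J * aeval θ (∂_i G) = Σ_l (adjugate J)_li * ∂_l G'`. The constant term of `det J` is
`det (jac θ) ≠ 0`, so there is a polynomial `u` with `Ord (N+1) (u * det J - 1)` (`det J = C γ (1 - r)`,
`Ord 1 r`, `u = C γ⁻¹ Σ_(j ≤ N) r^j`). Hence `aeval θ (∂_i G) - Σ_l u (adjugate J)_li ∂_l G'` has `Ord (N+1)`;
insert this in (2). -/
def STTStmt : Prop :=
  ∀ (k : Type) [Field k] (σ : Type) [Fintype σ] [DecidableEq σ] (G : MvPolynomial σ k)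
    (θ : σ → MvPolynomial σ k) (N : ℕ), (∀ i, coeff 0 (θ i) = 0) → (jac θ).det ≠ 0 → Star N G →
    Star N (aeval θ G)

/-- **DT1.** One step of finite determinacy.
PROOF. (1) Taylor: if `Ord e (b i)` for all `i`, `e ≥ 1`, then
`Ord (2e) (aeval (fun i => X i + b i) G - G - Σ_i b i * ∂_i G)`: by induction on `G`
(`MvPolynomial.induction_on`: constants, sums, products with `X_i`). (2) Let `h = F - G`, `Ord M h`. Write
`h = Σ_(degree m = M) c_m X^m + (Ord (M+1))`; each such `X^m = X^(m') X^(m'')` with `degree m'' = N`,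
`degree m' = M - N`; by `Star N F`, `X^(m'') = Σ_i c_i ∂_i F + (Ord (N+1))`. So there are `b_i` with
`Ord (M-N) (b i)` and `Ord (M+1) (h - Σ_i b_i ∂_i F)`. (3) `∂_i F - ∂_i G` has `Ord (M-1)`, so
`b_i (∂_i F - ∂_i G)` has `Ord (2M - N - 1)`, `2M - N - 1 ≥ M + 1`. (4) By (1) with `e = M - N`, `2e ≥ M + 1`:
`aeval (X + b) G - F = (G - F) + Σ b_i ∂_i G + (Ord (M+1)) = -h + Σ b_i ∂_i F + (Ord (M+1)) = (Ord (M+1))`. -/
def DT1Stmt : Prop :=
  ∀ (k : Type) [Field k] (σ : Type) [Fintype σ] [DecidableEq σ] (F G : MvPolynomial σ k)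
    (N M : ℕ), 1 ≤ N → 2 * N + 1 ≤ M → Star N F → Ord M (G - F) →
    ∃ b : σ → MvPolynomial σ k, (∀ i, Ord (M - N) (b i)) ∧
      Ord (M + 1) (aeval (fun i => X i + b i) G - F)

/-- **DTI** (needs DT1). Finite determinacy: an exact formal change of coordinates.
PROOF. Construct recursively `φ_M : σ → MvPolynomial σ k` for `M ≥ M₀` with `coeff 0 (φ_M i) = x0 i`,
`jac φ_M = jac φ`, `Ord M (aeval φ_M f - F)` and `Ord (M - N) (φ_(M+1) i - φ_M i)`: `φ_(M₀) = φ`; given `φ_M`, take
`b` from DT1 for `G = aeval φ_M f` and `φ_(M+1) i = aeval (X + b) (φ_M i)`, so that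
`aeval φ_(M+1) f = aeval (X + b) G`; `aeval (X + b) p - p` has `Ord (M - N)` for each `p` (induction on `p`), and
`M - N ≥ N + 1 ≥ 2`, so constant and linear coefficients do not change. Define the power series `ψ_i` by
`coeff m (ψ_i) = coeff m (φ_M i)` for any (so all) `M ≥ M₀` with `M > degree m + N`, e.g.
`M = M₀ + degree m + N + 1`. Then `ψ_i - φ_M i` has no coefficients in degrees `< M - N`, for every `M ≥ M₀`; so
the same holds for `aeval ψ f - aeval φ_M f` (the power series without coefficients in degrees `< e` are an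
ideal) and for `aeval φ_M f - F`. So `aeval ψ f - F` has no coefficients in degrees `< M - N`, for all `M`, it is
`0`. -/
def DTIStmt : Prop :=
  ∀ (k : Type) [Field k] (σ : Type) [Fintype σ] [DecidableEq σ] (f F : MvPolynomial σ k)
    (x0 : σ → k) (φ : σ → MvPolynomial σ k) (N M₀ : ℕ), 1 ≤ N → 2 * N + 1 ≤ M₀ → Star N F →
    (∀ i, coeff 0 (φ i) = x0 i) → (jac φ).det ≠ 0 → Ord M₀ (aeval φ f - F) → FEq f x0 F

/-- **FCZ.** Finitely many common zeros.
PROOF. `P` irreducible, `P ∤ Q` (so `Q ≠ 0`). Induct on the factorisation of `Q` (`WfDvdMonoid.induction_on_irreducible`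
or a multiset of irreducible factors, `UniqueFactorizationMonoid`): a common zero of `P` and `Q` is a common zero
of `P` and an irreducible factor `Q'` of `Q`, which is not associated to `P`; so let `Q` be irreducible, not
associated to `P`. By `exists_res` (Plc/BEZ.lean) for `i = 0, 1` there is a nonzero `r_i ∈ k[T]` with
`r_i(X_i) = A_i P + B_i Q`. So the `i`-th coordinate of a common zero in `ℂ²` is one of the finitely many
complex roots of `r_i` (`r_i ≠ 0` after `algebraMap k ℂ`, which is injective). -/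
def FCZStmt : Prop :=
  ∀ (k : Type) [Field k] [Algebra k ℂ] (P Q : MvPolynomial (Fin 2) k), Irreducible P → ¬ P ∣ Q →
    {x : Fin 2 → ℂ | aeval x P = 0 ∧ aeval x Q = 0}.Finite

/-- **BER** (needs FCZ). Bertini: high powers of the coordinates remove the other critical points.
PROOF. `g = 0`: take `c₁ = c₂ = 1` (`M ≥ 2`). Let `g ≠ 0`. Put
`P = C M * g - X_0 ∂_0 g - X_1 ∂_1 g`; the coefficient of `X^m` is `(M - degree m) coeff m g`, so `P ≠ 0`
(`totalDegree g < M`, characteristic zero). Let `c₁, c₂ ∈ k`, `G = g + C c₁ X_0^M + C c₂ X_1^M`. Euler: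
`C M * G - X_0 ∂_0 G - X_1 ∂_1 G = P`. So at a zero `x ∈ ℂ²` of `G, ∂_0 G, ∂_1 G` we have `P(x) = 0` and
`Q(x) = 0`, `Q = ∂_0 G = ∂_0 g + C (M c₁) X_0^(M-1)`.
CHOICE OF `c₁ ≠ 0` (all but finitely many elements of the infinite field `k` work): (a) for each irreducible
factor `P'` of `P` which is not associated to `X_0` (finitely many up to units), `P' ∤ Q`: two different bad `c₁` give
`P' ∣ X_0^(M-1)` up to a nonzero constant, so `P'` is associated to `X_0`; so at most one bad `c₁` for each `P'`. (b)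
For the points `(x, 0)`, `x ≠ 0`: if `G(x,0) = 0` and `∂_0 G(x,0) = 0`, then `P(x,0) = 0` (the term
`X_1 ∂_1 G` vanishes), where `P(x,0) = Σ_e (M - e) γ_e x^e`, `γ_e = coeff (single 0 e) g`. If all `γ_e = 0` then
`G(x,0) = c₁ x^M ≠ 0`. Otherwise `P(x,0)` is a nonzero polynomial in `x` with finitely many complex roots, and for
each root `x ≠ 0` only one (complex) number `c₁` satisfies `g(x,0) + c₁ x^M = 0`.
CHOICE OF `c₂ ≠ 0`: by (a) and FCZ the set `Z` of the `x ∈ ℂ²` with `P(x) = Q(x) = 0`, `x_0 ≠ 0` is finite (`P(x) = 0`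
means `P'(x) = 0` for an irreducible factor `P'`, not associated to `X_0` as `x_0 ≠ 0`). For `x ∈ Z`, `x_1 ≠ 0`, at
most one complex `c₂` gives `G(x) = 0`. For `x ∈ Z` with `x_1 = 0`: excluded by (b). For the points `(0, y)`,
`y ≠ 0`: as in (b), finitely many bad `c₂` (using `G = ∂_1 G = 0`, `c₂ ≠ 0`). Choose `c₂` outside of these finitely
many values. -/
def BERStmt : Prop :=
  ∀ (k : Type) [Field k] [CharZero k] [Algebra k ℂ] (g : MvPolynomial (Fin 2) k) (M : ℕ),
    2 ≤ M → g.totalDegree < M → ∃ c₁ c₂ : k, c₁ ≠ 0 ∧ c₂ ≠ 0 ∧ ∀ x : Fin 2 → ℂ,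
      aeval x (g + C c₁ * X 0 ^ M + C c₂ * X 1 ^ M) = 0 →
      (∀ i, aeval x (pderiv i (g + C c₁ * X 0 ^ M + C c₂ * X 1 ^ M)) = 0) → x = 0

/-- **CRK** (needs QDG, TQ, SPL, STR, STT, DTI, BER). The normal form of a critical point of corank `≤ 2`.
PROOF. `hess f x0` is symmetric (`pderiv` commute). QDG: `A`, `U`; TQ: `Ord 3 (…)`. STR: `N ≥ 1` with
`Star N G₀`, `G₀ = aeval (fun i => C (x0 i) + X i) f`. Let `M₀ = 2N + 3`; SPL for `M₀`: `φ`, `g`. Put
`θ_i = φ_i - C (x0 i)`: `aeval φ f = aeval θ G₀` (`aeval θ (C (x0 i) + X i) = φ_i`), `coeff 0 (θ i) = 0`,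
`jac θ = jac φ`; STT: `Star N (aeval φ f)`. Let `M₁ = M₀ + g.totalDegree + 1`, `c₁, c₂` from BER for `g`, `M₁`, and
`g' = g + C c₁ X_0^M₁ + C c₂ X_1^M₁`, `F = susp p q g'`. `Ord M₀ (aeval φ f - F)` (`M₁ ≥ M₀`). `Star N F`: the
`∂_i (aeval φ f - F)` have `Ord (M₀ - 1)`, `M₀ - 1 ≥ N + 1`. DTI: `FEq f x0 F`. `Nc g'`: the coefficient of
`X_0^(M₁ - 1)` in `∂_0 g'` is `M₁ c₁ ≠ 0` (`totalDegree g < M₁`). If `x : σ → k` is in `Crit F` then
`2 x i = 0` for `i ≠ p, q`, so `g'(x p, x q) = 0` and the derivatives of `g'` vanish there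
(`∂_p (rename ![p,q] g') = rename ![p,q] (∂_0 g')`), so `x p = x q = 0` by BER (map to `ℂ`). -/
def CRKStmt : Prop :=
  ∀ (k : Type) [Field k] [Algebra k ℂ] [IsAlgClosed k] (σ : Type) [Fintype σ] [DecidableEq σ]
    (f : MvPolynomial σ k) (x0 : σ → k) (p q : σ), p ≠ q → (Crit f).Finite → x0 ∈ Crit f →
    Fintype.card σ ≤ (hess f x0).rank + 2 →
    ∃ g : MvPolynomial (Fin 2) k, Nc g ∧ FEq f x0 (susp p q g) ∧ Crit (susp p q g) ⊆ {0}

/-- **SUS.** Suspensions of plane curves are composites.
PROOF. The class `Fibq` (QF/CLS.lean; or `Fibp`, Plc/CLO.lean), with `s = univ`: `rename ![p, q] g` is in the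
class at all values (constructor `plane`, `s = {p, q}`, `Nc`), each `X i ^ 2` is in the class at all values in the
variable `i` (`outer_mem`-type rule for the outer polynomial `T²` of the coordinate `X i`, which has no critical
values: constructor `smooth`; or directly as a gate), and the class at all values is closed under sums in disjoint
variables (`add_mem`; its proof is for `Subfield ℂ` and `Fin n`, but uses only the gate `X_0 + X_1`; repeat it, or
prove the statement for `P3` directly with `P3.gate`, `P3.equiv`, `P3.plane`: induct on the number of squares,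
`P3 (sadd h (X^2)) b` for all `b` from `P3 h b` for all `b`). Then `Fibq.p3` and `P3.equiv` for
`{x // x ∈ univ} ≃ σ`. Use the row FIN (`Pool/Agent/H87/QF/All.lean`) if you use `Fibq`. -/
def SUSStmt : Prop :=
  ∀ (k : Type) [Field k] [Algebra k ℂ] [IsAlgClosed k] (σ : Type) [Fintype σ] [DecidableEq σ]
    (g : MvPolynomial (Fin 2) k) (p q : σ), p ≠ q → Nc g → ∀ b : k, P3 (susp p q g) b

/-- **ONE.** One variable.
PROOF. `σ` has one element. `f = aeval (X i) P`-type: `f` is a polynomial in the coordinate `X i`, which has no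
critical values (`Sm`), so `f` is `P3` at all values by the gate with one input (`outer_mem` in QF/CLS.lean is this
statement for `Subfield ℂ`; its proof: the critical points of the polynomial on `{f = a}` are finitely many points
of `k`, and `P(b + u) - a` is semi-weighted homogeneous with `w = 1`, `n` = the multiplicity). -/
def ONEStmt : Prop :=
  ∀ (k : Type) [Field k] [Algebra k ℂ] [IsAlgClosed k] (σ : Type) [Fintype σ] [DecidableEq σ]
    (f : MvPolynomial σ k) (a : k), Fintype.card σ = 1 → Nc f → P3 f a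

end Pool.Agent.H87.IS
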