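import Pool.Agent.H87.IS.AB
import Pool.Agent.H18.IS.TOR
import Pool.Agent.H23.IS.BE1
import Pool.Agent.H34.IS.FCZ
import Pool.Agent.H34.IS.TSB
import Pool.Agent.H36.IS.STR
import Pool.Agent.H44.IS.LOG
import Pool.Agent.H51.IS.TRC
import Pool.Agent.H52.IS.TQ
import Pool.Agent.H52.IS.TSP
import Pool.Agent.H56.IS.STT
import Pool.Agent.H65.IS.KPT
import Pool.Agent.H70.IS.PSA
import Pool.Agent.H71.IS.ONE
import Pool.Agent.H72.IS.DTI
import Pool.Agent.H86.IS.ZTR
import Pool.Agent.H87.IS.BE2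
import Pool.Agent.H87.IS.BER
import Pool.Agent.H87.IS.CRK
import Pool.Agent.H87.IS.DT1
import Pool.Agent.H87.IS.ISO
import Pool.Agent.H87.IS.SUS
import Pool.Agent.H87.IS.TST
import Pool.Agent.H93.IS.SPL
import Pool.Agent.H99.IS.QDG
import Pool.Agent.H87.IS.GTL

/-! # Assembly of the rows of project IS -/

set_option autoImplicit false

namespace Pool.Agent.H87.IS

open MvPolynomial

theorem all_isolated (k : Subfield ℂ) [IsAlgClosed k] (n : ℕ) (f : MvPolynomial (Fin n) k)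
    (hf : Pool.Isol.Nonconstant f) (hfin : {x | Pool.Isol.Sing f x}.Finite)
    (h : ∀ x, Pool.Isol.Sing f x → Pool.Isol.CorankTwo f x ∨ Pool.Isol.SumOfGerms f x) :
    Pool.Mot.Strong k f :=
  Pool.Isol.isolated (ISO TOR (TRC PSA) ZTR LOG GTL KPT)
    (CRK QDG TQ SPL STR STT (DTI DT1) (BER FCZ)) SUS ONE
    (TST STR STT (DTI DT1) (TSB (BE2 FCZ) BE1) (TSP ONE)) k n f hf hfin h

end Pool.Agent.H87.IS
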