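import Pool.Agent.H87.IS.Stmts2
import Pool.Agent.H87.IS.BER

set_option autoImplicit false

namespace Pool.Agent.H87.IS

open MvPolynomial

open BERAux in
/-- row BE2: the cofinite form of `BER` -/
theorem BE2 (hF : FCZStmt) : BE2Stmt := by
  intro k _ _ _ g M hM hg
  classical
  have hinj : Function.Injective (algebraMap k ℂ) := (algebraMap k ℂ).injective
  have hM0 : (M : ℂ) ≠ 0 := by
    have : M ≠ 0 := by omega
    exact_mod_cast this
  have hMk : (M : k) ≠ 0 := by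
    have : M ≠ 0 := by omega
    exact_mod_cast this
  -- evaluations
  have ev : ∀ (c₁ c₂ : k) (x : Fin 2 → ℂ), aeval x (g + C c₁ * X 0 ^ M + C c₂ * X 1 ^ M) =
      aeval x g + algebraMap k ℂ c₁ * x 0 ^ M + algebraMap k ℂ c₂ * x 1 ^ M := by
    intro c₁ c₂ x
    simp only [map_add, map_mul, map_pow, aeval_X, aeval_C]
  have d0 : ∀ (c₁ c₂ : k), pderiv 0 (g + C c₁ * X 0 ^ M + C c₂ * X 1 ^ M) =
      pderiv 0 g + C ((M : k) * c₁) * X 0 ^ (M - 1) := by
    intro c₁ c₂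
    have e1 : pderiv 0 (X 0 ^ M : MvPolynomial (Fin 2) k) = C (M : k) * X 0 ^ (M - 1) := by
      rw [pderiv_pow, pderiv_X_self, mul_one]
      simp
    have e2 : pderiv 0 (X 1 ^ M : MvPolynomial (Fin 2) k) = 0 := by
      rw [pderiv_pow, pderiv_X_of_ne (by decide), mul_zero]
    rw [map_add, map_add, pderiv_C_mul, pderiv_C_mul, e1, e2, mul_zero, add_zero, C_mul]
    ring
  have d1 : ∀ (c₁ c₂ : k), pderiv 1 (g + C c₁ * X 0 ^ M + C c₂ * X 1 ^ M) =
      pderiv 1 g + C ((M : k) * c₂) * X 1 ^ (M - 1) := by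
    intro c₁ c₂
    have e1 : pderiv 1 (X 1 ^ M : MvPolynomial (Fin 2) k) = C (M : k) * X 1 ^ (M - 1) := by
      rw [pderiv_pow, pderiv_X_self, mul_one]
      simp
    have e2 : pderiv 1 (X 0 ^ M : MvPolynomial (Fin 2) k) = 0 := by
      rw [pderiv_pow, pderiv_X_of_ne (by decide), mul_zero]
    rw [map_add, map_add, pderiv_C_mul, pderiv_C_mul, e1, e2, mul_zero, add_zero, C_mul]
    ring
  have ev0 : ∀ (c₁ c₂ : k) (x : Fin 2 → ℂ),
      aeval x (pderiv 0 (g + C c₁ * X 0 ^ M + C c₂ * X 1 ^ M)) =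
      aeval x (pderiv 0 g) + M * algebraMap k ℂ c₁ * x 0 ^ (M - 1) := by
    intro c₁ c₂ x
    rw [d0]
    simp only [map_add, map_mul, map_pow, aeval_X, aeval_C, map_natCast]
  have ev1 : ∀ (c₁ c₂ : k) (x : Fin 2 → ℂ),
      aeval x (pderiv 1 (g + C c₁ * X 0 ^ M + C c₂ * X 1 ^ M)) =
      aeval x (pderiv 1 g) + M * algebraMap k ℂ c₂ * x 1 ^ (M - 1) := by
    intro c₁ c₂ x
    rw [d1]
    simp only [map_add, map_mul, map_pow, aeval_X, aeval_C, map_natCast]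
  have powM : ∀ z : ℂ, z ^ M = z * z ^ (M - 1) := by
    intro z
    rw [← pow_succ', Nat.sub_add_cancel (by omega)]
  by_cases h0 : g = 0
  · refine ⟨{0}, fun c₁ hc₁ => ⟨{0}, fun c₂ hc₂ x _ hx => ?_⟩⟩
    rw [Finset.mem_singleton] at hc₁ hc₂
    have hi1 : (M : ℂ) * algebraMap k ℂ c₁ ≠ 0 :=
      mul_ne_zero hM0 (fun h => hc₁ (hinj (by rw [h, map_zero])))
    have hi2 : (M : ℂ) * algebraMap k ℂ c₂ ≠ 0 :=
      mul_ne_zero hM0 (fun h => hc₂ (hinj (by rw [h, map_zero])))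
    have h1 := hx 0
    have h2 := hx 1
    rw [ev0] at h1
    rw [ev1] at h2
    rw [h0, map_zero, map_zero, zero_add] at h1 h2
    have h3 : x 0 = 0 := by
      have := (mul_eq_zero.1 h1).resolve_left hi1
      exact pow_eq_zero_iff (by omega : M - 1 ≠ 0) |>.1 this
    have h4 : x 1 = 0 := by
      have := (mul_eq_zero.1 h2).resolve_left hi2
      exact pow_eq_zero_iff (by omega : M - 1 ≠ 0) |>.1 this
    funext i
    fin_cases i
    · exact h3
    · exact h4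
  have hP := PP_ne_zero hg h0
  have euler : ∀ (c₁ c₂ : k) (x : Fin 2 → ℂ),
      aeval x (g + C c₁ * X 0 ^ M + C c₂ * X 1 ^ M) = 0 →
      (∀ i, aeval x (pderiv i (g + C c₁ * X 0 ^ M + C c₂ * X 1 ^ M)) = 0) →
      aeval x (PP M g) = 0 := by
    intro c₁ c₂ x hx hx'
    have h1 := hx' 0
    have h2 := hx' 1
    rw [ev] at hx
    rw [ev0] at h1
    rw [ev1] at h2
    unfold PP
    simp only [map_sub, map_mul, aeval_X, map_natCast]
    rw [powM, powM] at hx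
    linear_combination (M : ℂ) * hx - x 0 * h1 - x 1 * h2
  -- choice of `c₁`
  have b1 := fin_c hF (pderiv 0 g) (M - 1) (PP M g) hP
  have b1' : {c : k | ¬ {x : Fin 2 → ℂ | aeval x (PP M g) = 0 ∧
      aeval x (pderiv 0 g + C ((M : k) * c) * X 0 ^ (M - 1)) = 0 ∧ x 0 ≠ 0}.Finite}.Finite :=
    b1.preimage (f := fun c : k => (M : k) * c) (fun a _ b _ hab => mul_left_cancel₀ hMk hab)
  have b2 := axis hF hg 0 1
  refine ⟨((b1'.union b2).union (Set.finite_singleton (0 : k))).toFinset, fun c₁ hc₁ => ?_⟩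
  rw [Set.Finite.mem_toFinset, Set.mem_union, Set.mem_union, not_or, not_or] at hc₁
  obtain ⟨⟨hc1, hc2⟩, hc3⟩ := hc₁
  rw [Set.mem_ofPred_eq, not_not] at hc1
  have hc₁0 : c₁ ≠ 0 := hc3
  -- choice of `c₂`
  have b3 := axis hF hg 1 0
  have b4 : {c : k | ∃ x ∈ {x : Fin 2 → ℂ | aeval x (PP M g) = 0 ∧
      aeval x (pderiv 0 g + C ((M : k) * c₁) * X 0 ^ (M - 1)) = 0 ∧ x 0 ≠ 0}, x 1 ≠ 0 ∧
      aeval x g + algebraMap k ℂ c₁ * x 0 ^ M + algebraMap k ℂ c * x 1 ^ M = 0}.Finite := by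
    refine Set.Finite.subset ((hc1.image fun x => -(aeval x g + algebraMap k ℂ c₁ * x 0 ^ M) /
      x 1 ^ M).preimage (f := algebraMap k ℂ) hinj.injOn) fun c hc => ?_
    obtain ⟨x, hx, hx1, hx2⟩ := hc
    refine ⟨x, hx, ?_⟩
    have h3 : x 1 ^ M ≠ 0 := pow_ne_zero _ hx1
    simp only
    rw [div_eq_iff h3]
    linear_combination -hx2
  refine ⟨((b3.union b4).union (Set.finite_singleton (0 : k))).toFinset, fun c₂ hc₂ x hx hx' => ?_⟩
  rw [Set.Finite.mem_toFinset, Set.mem_union, Set.mem_union, not_or, not_or] at hc₂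
  obtain ⟨⟨hd1, hd2⟩, hd3⟩ := hc₂
  have hc₂0 : c₂ ≠ 0 := hd3
  have hPx := euler c₁ c₂ x hx hx'
  have h1 := hx' 0
  rw [d0] at h1
  rw [ev] at hx
  have hM1 : M ≠ 0 := by omega
  by_cases hx0 : x 0 = 0
  · by_cases hx1 : x 1 = 0
    · funext i
      fin_cases i
      · exact hx0
      · exact hx1
    · exfalso
      refine hd1 ⟨hc₂0, x, hx0, hx1, hPx, ?_⟩
      rw [hx0, zero_pow hM1, mul_zero, add_zero] at hx
      exact hx
  · by_cases hx1 : x 1 = 0
    · exfalso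
      refine hc2 ⟨hc₁0, x, hx1, hx0, hPx, ?_⟩
      rw [hx1, zero_pow hM1, mul_zero, add_zero] at hx
      exact hx
    · exfalso
      exact hd2 ⟨x, ⟨hPx, h1, hx0⟩, hx1, hx⟩

end Pool.Agent.H87.IS
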