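import Pool.Agent.H87.IS.Stmts

/-!
# Project ISO, second part: sums of germs in at most two variables

GOAL. The same theorem for the isolated critical points at which `f - a` is, in suitable formal coordinates, a
sum of power series in disjoint variables, each in at most two variables (every monomial involves
variables of one colour only, each colour has at most two variables). Same rules as in `Stmts.lean`
(import `Pool.Agent.H87.IS.Stmts2`).
-/

set_option autoImplicit false

namespace Pool.Agent.H87.IS

open MvPolynomial Pool.Agent.H39.MonoR Pool.Agent.H75.Mono Pool.Agent.H87.QF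

/-- all variables of the monomial have the same colour -/
def Blk {σ : Type} (c : σ → σ) (m : σ →₀ ℕ) : Prop := ∀ i j, m i ≠ 0 → m j ≠ 0 → c i = c j

/-- **BE2** (needs FCZ). `BER` for all but finitely many coefficients. (The proof of `BER`.) -/
def BE2Stmt : Prop :=
  ∀ (k : Type) [Field k] [CharZero k] [Algebra k ℂ] (g : MvPolynomial (Fin 2) k) (M : ℕ),
    2 ≤ M → g.totalDegree < M → ∃ B₁ : Finset k, ∀ c₁, c₁ ∉ B₁ → ∃ B₂ : Finset k, ∀ c₂, c₂ ∉ B₂ →
      ∀ x : Fin 2 → ℂ, aeval x (g + C c₁ * X 0 ^ M + C c₂ * X 1 ^ M) = 0 →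
        (∀ i, aeval x (pderiv i (g + C c₁ * X 0 ^ M + C c₂ * X 1 ^ M)) = 0) → x = 0

/-- **BE1.** The same in one variable.
PROOF. `P = C M * g - T g'` has the coefficients `(M - e) g_e`. At a zero `x ∈ ℂ` of `G = g + c T^M` and of `G'`
we have `P(x) = M G(x) - x G'(x) = 0`. If `g = 0`, then `c ≠ 0` suffices. If `g ≠ 0`, then `P ≠ 0` has finitely many
complex roots, and for every root `x ≠ 0` at most one complex `c` satisfies `g(x) + c x^M = 0`; `B` = `{0}` and the
elements of `k` which are mapped to one of these (finitely many, `algebraMap` is injective). -/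
def BE1Stmt : Prop :=
  ∀ (k : Type) [Field k] [CharZero k] [Algebra k ℂ] (g : Polynomial k) (M : ℕ),
    2 ≤ M → g.natDegree < M → ∃ B : Finset k, ∀ c, c ∉ B → ∀ x : ℂ,
      Polynomial.aeval x (g + Polynomial.C c * Polynomial.X ^ M) = 0 →
      Polynomial.aeval x (Polynomial.derivative (g + Polynomial.C c * Polynomial.X ^ M)) = 0 → x = 0

/-- **TSB** (needs BE2, BE1). Bertini for sums.
PROOF. Induct on a finset `J` of colours: there are `e i ≠ 0` for the `i` with `c i ∈ J` such that
`F_J = G_J + Σ_(c i ∈ J) C (e i) X_i^M` (`G_J` = the sum of the monomials of `G` with some variable of a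
colour in `J`; the constant term of `G` is zero) has the property: if `x : σ → ℂ` is a zero of `F_J` and of all
`∂_i F_J`, then `x i = 0` for all `i` with `c i ∈ J`. `J = ∅`: nothing to show. Step `J ∪ {j}`, `j ∉ J`: by `sard`
(Plc/SARD.lean, `R = ℂ`) for `F_J` there is a finset `T ⊂ k` which contains all values of `F_J` at the common
zeros of its derivatives. The colour `j` has 0, 1 or 2 variables. No variable: nothing to do. Two variables
`i ≠ i'`: `G_j` (the monomials of colour `j`, zero constant term) is `rename ![i, i'] g`; apply BE2 to `g + C v` for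
each `v ∈ T`; choose `e i` outside of the union of the sets `B₁` and `{0}`, then `e i'` outside of the union of the
sets `B₂` and `{0}` (`k` is infinite). One variable `i`: the same with BE1. Let `x` be a zero of
`F = F_J + F_j` and of all `∂_l F`. `F_J` and `F_j` have no common variable, so all `∂_l F_J` and all
`∂_l F_j` vanish at `x`. So `F_J(x) = v` with `v ∈ T`, and `(x i, x i')` is a zero of `g + C v + …` and of its
derivatives: `x i = x i' = 0`. So `F_j(x) = 0` (`F_j` has zero constant term), so `F_J(x) = 0`, and the `x l`,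
`c l ∈ J`, vanish by induction. At the end take `J = univ`. -/
def TSBStmt : Prop :=
  ∀ (k : Type) [Field k] [CharZero k] [IsAlgClosed k] [Algebra k ℂ] (σ : Type) [Fintype σ]
    [DecidableEq σ] (c : σ → σ) (G : MvPolynomial σ k) (M : ℕ),
    (∀ j, (Finset.univ.filter fun i => c i = j).card ≤ 2) → coeff 0 G = 0 →
    (∀ m, coeff m G ≠ 0 → Blk c m) → 2 ≤ M → G.totalDegree < M →
    ∃ e : σ → k, (∀ i, e i ≠ 0) ∧ ∀ x : σ → ℂ, aeval x (G + ∑ i, C (e i) * X i ^ M) = 0 →
      (∀ i, aeval x (pderiv i (G + ∑ i, C (e i) * X i ^ M)) = 0) → x = 0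

/-- **TSP.** Sums of polynomials in at most two variables are composites.
PROOF. `F = Σ_j F_j + const`, `F_j` = the monomials of colour `j` (nonconstant, if the colour `j` has a variable:
each `X_i` occurs, in a monomial of colour `c i`). Each `F_j` is a polynomial in two variables (constructor
`plane` of `Fibq`, or `P3.plane`) or in one variable (row ONE: a polynomial in one coordinate), nonconstant, so it
is in the class at all values. The class at all values is closed under sums in disjoint variables (gate
`X_0 + X_1`, see `add_mem` in QF/CLS.lean and the row SUS) and under adding constants. Induct on the finset of the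
colours which occur. (`σ` nonempty.) -/
def TSPStmt : Prop :=
  ∀ (k : Type) [Field k] [Algebra k ℂ] [IsAlgClosed k] (σ : Type) [Fintype σ] [DecidableEq σ]
    [Nonempty σ] (c : σ → σ) (F : MvPolynomial σ k),
    (∀ j, (Finset.univ.filter fun i => c i = j).card ≤ 2) →
    (∀ m, coeff m F ≠ 0 → Blk c m) → (∀ i, ∃ m, coeff m F ≠ 0 ∧ m i ≠ 0) → ∀ b : k, P3 F b

/-- **TST** (needs STR, STT, DTI, TSB, TSP). The normal form at a critical point which is formally a sum of germs in
at most two variables.
PROOF. STR: `N ≥ 1` with `Star N G₀`, `G₀ = aeval (fun i => C (x0 i) + X i) f`. `M₀ = 2N + 3`. Let `φ'_i` be the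
polynomial with the coefficients of `φ_i` in the degrees `< M₀ + 1`; `aeval φ' f` and `aeval φ f` have the same
coefficients in degrees `< M₀ + 1` (truncation is compatible with sums and products). `θ_i = φ'_i - C (x0 i)`,
`aeval φ' f = aeval θ G₀`, `jac θ` = the matrix of the linear coefficients of `φ`; STT: `Star N (aeval φ' f)`.
Let `G` be the sum of the monomials of `aeval φ' f` of degree `< M₀`: `coeff 0 G = f(x0) = 0`, all its
monomials are `Blk c`. `M₁ = M₀ + G.totalDegree + 1`; TSB gives `e`; `F = G + Σ C (e i) X_i^M₁`.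
`Ord M₀ (aeval φ' f - F)`, so `Star N F` (see CRK), and DTI gives `FEq f x0 F`. `Crit F ⊆ {0}` by TSB (map to
`ℂ`). TSP applies to `F`: the monomials `X_i^M₁` are `Blk c` and have the coefficient `e i ≠ 0`. (`σ` empty:
`f = 0` as `x0 ∈ Crit f`; excluded by `Nonempty σ`.) -/
def TSTStmt : Prop :=
  ∀ (k : Type) [Field k] [Algebra k ℂ] [IsAlgClosed k] (σ : Type) [Fintype σ] [DecidableEq σ]
    [Nonempty σ] (f : MvPolynomial σ k) (x0 : σ → k) (c : σ → σ) (φ : σ → MvPowerSeries σ k),
    (Crit f).Finite → x0 ∈ Crit f → (∀ i, MvPowerSeries.constantCoeff (φ i) = x0 i) →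
    (Matrix.of fun i j => MvPowerSeries.coeff (Finsupp.single j 1) (φ i)).det ≠ 0 →
    (∀ j, (Finset.univ.filter fun i => c i = j).card ≤ 2) →
    (∀ m, MvPowerSeries.coeff m (aeval φ f) ≠ 0 → Blk c m) →
    ∃ F : MvPolynomial σ k, FEq f x0 F ∧ P3 F 0 ∧ Crit F ⊆ {0}

end Pool.Agent.H87.IS
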